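import Pool.Agent.H934R2.Ch.Conv

/-!
Natural densities of the sets that are invariant under Chamberland's map: analytic bounds.
-/

set_option autoImplicit false

namespace Pool.Agent.W40.Ch

open Real Set MeasureTheory Filter Topology
open Pool.Agent.H934R2.Ch (f df hasDerivAt_f continuous_f continuous_df)

theorem f_lb {x : ℝ} (hx : 0 ≤ x) : x / 2 ≤ f x := by
  unfold f
  have h := Real.cos_le_one (π * x)
  nlinarith

theorem f_ub {x : ℝ} (hx : 0 ≤ x) : f x ≤ (3 * x + 1) / 2 := by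
  unfold f
  have h := Real.neg_one_le_cos (π * x)
  nlinarith

theorem f_pos {x : ℝ} (hx : 0 < x) : 0 < f x := lt_of_lt_of_le (by linarith) (f_lb hx.le)

theorem f_eq (x : ℝ) : f x = x * (1 + -(cos (π * x)) / 2) + 1 / 4 + (-(cos (π * x)) / 2) / 2 := by
  unfold f; ring

theorem df_abs_le {x : ℝ} (hx : 0 ≤ x) : |df x| ≤ 2 * x + 3 := by
  unfold df
  have h1 := Real.neg_one_le_cos (π * x)
  have h2 := Real.cos_le_one (π * x)
  have h3 := Real.neg_one_le_sin (π * x)
  have h4 := Real.sin_le_one (π * x)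
  have hp := Real.pi_pos
  have hp2 : π < 3.15 := Real.pi_lt_d2
  have h5 : 0 ≤ π * (2 * x + 1) / 4 := by positivity
  have h6 : π * (2 * x + 1) / 4 ≤ 3.15 * (2 * x + 1) / 4 := by nlinarith
  have h7 : |π * (2 * x + 1) / 4 * sin (π * x)| ≤ 3.15 * (2 * x + 1) / 4 := by
    rw [abs_mul, abs_of_nonneg h5]
    calc π * (2 * x + 1) / 4 * |sin (π * x)| ≤ π * (2 * x + 1) / 4 * 1 :=
          mul_le_mul_of_nonneg_left (Real.abs_sin_le_one _) h5
      _ ≤ _ := by linarith
  have h8 := abs_le.1 h7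
  rw [abs_le]
  constructor <;> linarith [h8.1, h8.2]

/-- the second derivative -/
noncomputable def ddf (x : ℝ) : ℝ := π * sin (π * x) + (2 * x + 1) * (π ^ 2 / 4) * cos (π * x)

theorem hasDerivAt_df (x : ℝ) : HasDerivAt df (ddf x) x := by
  have h1 : HasDerivAt (fun x : ℝ => cos (π * x)) (-sin (π * x) * (π * 1)) x :=
    (Real.hasDerivAt_cos (π * x)).comp x ((hasDerivAt_id x).const_mul π)
  have h2 : HasDerivAt (fun x : ℝ => sin (π * x)) (cos (π * x) * (π * 1)) x :=
    (Real.hasDerivAt_sin (π * x)).comp x ((hasDerivAt_id x).const_mul π)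
  have h3 : HasDerivAt (fun x : ℝ => π * (2 * x + 1) / 4) (π * (2 * 1 + 0) / 4) x :=
    ((((hasDerivAt_id x).const_mul 2).add (hasDerivAt_const x (1 : ℝ))).const_mul π).div_const 4
  have h4 := ((hasDerivAt_const x (1 : ℝ)).sub (h1.div_const 2)).add (h3.mul h2)
  have e : (0 : ℝ) - -sin (π * x) * (π * 1) / 2 + (π * (2 * 1 + 0) / 4 * sin (π * x) +
      π * (2 * x + 1) / 4 * (cos (π * x) * (π * 1))) = ddf x := by
    unfold ddf; ring
  rw [e] at h4
  exact h4

theorem ddf_abs_le {x : ℝ} (hx : 0 ≤ x) : |ddf x| ≤ 5 * x + 6 := by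
  unfold ddf
  have hp := Real.pi_pos
  have hp2 : π < 3.15 := Real.pi_lt_d2
  have hpp : π ^ 2 ≤ 9.9225 := by nlinarith
  have h1 : |π * sin (π * x)| ≤ 3.15 := by
    rw [abs_mul, abs_of_pos hp]
    calc π * |sin (π * x)| ≤ π * 1 := mul_le_mul_of_nonneg_left (Real.abs_sin_le_one _) hp.le
      _ ≤ _ := by linarith
  have h5 : 0 ≤ (2 * x + 1) * (π ^ 2 / 4) := by positivity
  have h2 : |(2 * x + 1) * (π ^ 2 / 4) * cos (π * x)| ≤ (2 * x + 1) * 2.5 := by
    rw [abs_mul, abs_of_nonneg h5]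
    calc (2 * x + 1) * (π ^ 2 / 4) * |cos (π * x)| ≤ (2 * x + 1) * (π ^ 2 / 4) * 1 :=
          mul_le_mul_of_nonneg_left (Real.abs_cos_le_one _) h5
      _ ≤ _ := by nlinarith
  have h6 := abs_le.1 h1
  have h7 := abs_le.1 h2
  rw [abs_le]
  constructor <;> linarith [h6.1, h6.2, h7.1, h7.2]

theorem sin_shift (m : ℕ) (x : ℝ) : sin (π * x) = (-1) ^ m * sin (π * (x - m)) := by
  have h := Real.sin_add_nat_mul_pi (π * (x - m)) m
  have e : π * (x - m) + m * π = π * x := by ring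
  rw [e] at h
  exact h

/-- Jordan's inequality on the middle part of a cell -/
theorem sin_mid {m : ℕ} {q x : ℝ} (hq : 0 ≤ q) (h1 : m + q ≤ x) (h2 : x ≤ m + 1 - q) :
    2 * q ≤ sin (π * (x - m)) := by
  have hp := Real.pi_pos
  rcases le_total (x - m) (1 / 2) with h | h
  · have h3 := Real.mul_le_sin (x := π * (x - m)) (by nlinarith) (by nlinarith)
    have e : 2 / π * (π * (x - m)) = 2 * (x - m) := by field_simp
    rw [e] at h3
    linarith
  · have h3 := Real.mul_le_sin (x := π - π * (x - m)) (by nlinarith) (by nlinarith)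
    rw [Real.sin_pi_sub] at h3
    have e : 2 / π * (π - π * (x - m)) = 2 * (1 - (x - m)) := by field_simp
    rw [e] at h3
    linarith

/-- lower bound for the derivative, with its sign, in the middle part of a cell -/
theorem df_mid {m : ℕ} {q x : ℝ} (hq : 0 ≤ q) (hmq : 1 ≤ m * q) (h1 : m + q ≤ x)
    (h2 : x ≤ m + 1 - q) : m * q ≤ (-1) ^ m * df x := by
  have hs := sin_mid hq h1 h2
  have hp : 3 < π := Real.pi_gt_three
  have hc1 := Real.neg_one_le_cos (π * x)
  have hc2 := Real.cos_le_one (π * x)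
  have hm : (0 : ℝ) ≤ m := by positivity
  have hx : (m : ℝ) ≤ x := by linarith
  have key : 3 * (m * q) ≤ π * (2 * x + 1) / 4 * sin (π * (x - m)) := by
    have h3 : π * (2 * x + 1) / 4 * (2 * q) ≤ π * (2 * x + 1) / 4 * sin (π * (x - m)) :=
      mul_le_mul_of_nonneg_left hs (by have : 0 ≤ 2 * x + 1 := by linarith
                                       positivity)
    have h4 : 3 * (m * q) ≤ π * (2 * x + 1) / 4 * (2 * q) := by
      have e : π * (2 * x + 1) / 4 * (2 * q) = π * (x + 1 / 2) * q := by ring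
      rw [e]
      have : 3 * (m : ℝ) ≤ π * (x + 1 / 2) := by nlinarith
      nlinarith
    linarith
  have hsq : ((-1 : ℝ) ^ m) * ((-1) ^ m) = 1 := by
    rw [← mul_pow]; norm_num
  have e : (-1 : ℝ) ^ m * df x = (-1) ^ m * (1 - cos (π * x) / 2) +
      π * (2 * x + 1) / 4 * sin (π * (x - m)) := by
    unfold df
    rw [sin_shift m x]
    have : (-1 : ℝ) ^ m * (1 - cos (π * x) / 2 + π * (2 * x + 1) / 4 * ((-1) ^ m * sin (π * (x - m))))
      = (-1) ^ m * (1 - cos (π * x) / 2) +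
        ((-1 : ℝ) ^ m * (-1) ^ m) * (π * (2 * x + 1) / 4 * sin (π * (x - m))) := by ring
    rw [this, hsq, one_mul]
  rw [e]
  have h5 : -(3 / 2) ≤ (-1 : ℝ) ^ m * (1 - cos (π * x) / 2) := by
    rcases neg_one_pow_eq_or ℝ m with h | h <;> rw [h] <;> linarith
  linarith

theorem df_mid_abs {m : ℕ} {q x : ℝ} (hq : 0 ≤ q) (hmq : 1 ≤ m * q) (h1 : m + q ≤ x)
    (h2 : x ≤ m + 1 - q) : m * q ≤ |df x| := by
  have h := df_mid hq hmq h1 h2
  rcases neg_one_pow_eq_or ℝ m with h3 | h3 <;> rw [h3] at h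
  · rw [one_mul] at h; exact h.trans (le_abs_self _)
  · have : m * q ≤ - df x := by linarith
    exact this.trans (neg_le_abs _)

/-- expansion in the middle part of a cell: `(-1)^m (f y - f x) ≥ m q (y - x)` -/
theorem f_expand {m : ℕ} {q x y : ℝ} (hq : 0 ≤ q) (hmq : 1 ≤ m * q) (h1 : m + q ≤ x)
    (hxy : x ≤ y) (h2 : y ≤ m + 1 - q) : m * q * (y - x) ≤ (-1) ^ m * (f y - f x) := by
  have h := Convex.mul_sub_le_image_sub_of_le_deriv (D := Icc x y) (convex_Icc x y)
    (f := fun z => (-1 : ℝ) ^ m * f z) (C := m * q)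
    (continuous_const.mul continuous_f).continuousOn
    (fun z _ => ((hasDerivAt_f z).const_mul _).differentiableAt.differentiableWithinAt)
    (by
      intro z hz
      rw [interior_Icc] at hz
      rw [((hasDerivAt_f z).const_mul ((-1 : ℝ) ^ m)).deriv]
      exact df_mid hq hmq (by linarith [hz.1]) (by linarith [hz.2]))
    x (left_mem_Icc.2 hxy) y (right_mem_Icc.2 hxy) hxy
  have e : (-1 : ℝ) ^ m * (f y - f x) = (-1) ^ m * f y - (-1) ^ m * f x := by ring
  rw [e]
  exact h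

theorem f_injOn {m : ℕ} {q : ℝ} (hq : 0 ≤ q) (hmq : 1 ≤ m * q) :
    InjOn f (Icc (m + q) (m + 1 - q)) := by
  intro x hx y hy hxy
  have hpos : 0 < (m : ℝ) * q := by linarith
  rcases le_total x y with h | h
  · have := f_expand hq hmq hx.1 h hy.2
    rw [hxy, sub_self, mul_zero] at this
    nlinarith
  · have := f_expand hq hmq hy.1 h hx.2
    rw [hxy, sub_self, mul_zero] at this
    nlinarith

end Pool.Agent.W40.Ch
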