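import Pool.Agent.W40.Ch.A9

/-!
The density criterion.
-/

set_option autoImplicit false

namespace Pool.Agent.W40.Ch

open Real Set MeasureTheory Filter Topology
open Pool.Agent.H934R2.Ch (f df hasDerivAt_f continuous_f continuous_df AttrPt Attracts T b)

/-- cycles attracting the same point coincide -/
theorem same_cycle {y z x : ℝ} (hy : 0 < Function.minimalPeriod f y)
    (hz : 0 < Function.minimalPeriod f z) (h1 : Attracts y x) (h2 : Attracts z x) :
    ∃ i, z = f^[i] y := by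
  obtain ⟨j, hj⟩ := h1
  obtain ⟨i, hi⟩ := h2
  set p := Function.minimalPeriod f y with hp
  set q := Function.minimalPeriod f z with hq
  have hij : j ≤ j * q + i := by
    have : j * 1 ≤ j * q := Nat.mul_le_mul_left j hz
    omega
  refine ⟨j * q + i - j, ?_⟩
  have e1 : Tendsto (fun n : ℕ => n * q) atTop atTop :=
    tendsto_atTop_mono (fun n => Nat.le_mul_of_pos_right n hz) tendsto_id
  have e2 : Tendsto (fun n : ℕ => n * p + j) atTop atTop :=
    tendsto_atTop_mono (fun n => (Nat.le_mul_of_pos_right n hy).trans (Nat.le_add_right _ _))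
      tendsto_id
  have l1 := hj.comp e1
  have l2 := hi.comp e2
  have l3 := ((continuous_f.iterate (j * q + i - j)).tendsto y).comp l1
  have e : ((f^[j * q + i - j]) ∘ ((fun k : ℕ => f^[k * p + j] x) ∘ fun n : ℕ => n * q)) =
      ((fun k : ℕ => f^[k * q + i] x) ∘ fun n : ℕ => n * p + j) := by
    funext n
    simp only [Function.comp_apply]
    rw [← Function.iterate_add_apply]
    congr 1
    have h3 : j * q + i - j + (n * q * p + j) = (n * p + j) * q + i := by
      have h4 : j * q + i - j + (n * q * p + j) = (j * q + i) + n * q * p := by omega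
      rw [h4]; ring
    rw [h3]
  rw [e] at l3
  exact tendsto_nhds_unique l2 l3

theorem Inv.union2 {A B : Set ℝ} (hA : Inv A) (hB : Inv B) : Inv (A ∪ B) := by
  refine ⟨hA.1.union hB.1, fun x hx => ?_⟩
  rw [mem_union, mem_union, hA.2 x hx, hB.2 x hx]

theorem bb_disj {A B : Set ℝ} (hB : MeasurableSet B) (h : Disjoint A B) (k : ℕ) :
    bb A k + bb B k ≤ 1 := by
  have h1 : volume.real ((A ∩ cell k) ∪ (B ∩ cell k)) =
      volume.real (A ∩ cell k) + volume.real (B ∩ cell k) :=
    measureReal_union (h.mono inter_subset_left inter_subset_left) (hB.inter (cell_meas k))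
      (inter_fin' _ _) (inter_fin' _ _)
  unfold bb
  rw [← h1, ← union_inter_distrib_right]
  exact bb_le_one _ k

/-- disjoint invariant sets of densities `D` and `1` -/
theorem null_of_disj {A U : Set ℝ} (hA : Inv A) (hU : Inv U) (h : Disjoint A U)
    (hD : Tendsto (bb U) atTop (𝓝 1)) : volume (A ∩ Ioi 1) = 0 := by
  by_contra hne
  obtain ⟨D, hDA⟩ := dens_exists hA
  have h1 := dens_pos hA hne hDA
  have h2 : D + 1 ≤ 1 := le_of_tendsto' (hDA.add hD) fun k => bb_disj hU.1 h k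
  linarith

theorem compl_inv {U : Set ℝ} (hU : Inv U) : Inv (Ioi 0 \ U) := by
  refine ⟨measurableSet_Ioi.diff hU.1, fun x hx => ?_⟩
  rw [Set.mem_sdiff, Set.mem_sdiff, hU.2 x hx]
  have : x ∈ Ioi (0 : ℝ) ↔ f x ∈ Ioi (0 : ℝ) := ⟨fun h => f_pos h, fun _ => hx⟩
  rw [this]

/-- density one means full measure -/
theorem full_of_one {U : Set ℝ} (hU : Inv U) (hD : Tendsto (bb U) atTop (𝓝 1)) :
    volume (Ioi 1 \ U) = 0 := by
  have h1 := null_of_disj (compl_inv hU) hU disjoint_sdiff_left hD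
  apply measure_mono_null _ h1
  rintro x ⟨hx, hxU⟩
  have hx1 : (1 : ℝ) < x := hx
  exact ⟨⟨by show (0 : ℝ) < x; linarith, hxU⟩, hx⟩

theorem small_m {m : ℕ} (hm : 1 ≤ m) {y : ℝ} (hy : y ∈ Set.Icc (m : ℝ) (m + b m)) (h1 : y < 2) :
    m = 1 := by
  have h2 : (m : ℝ) < 2 := lt_of_le_of_lt hy.1 h1
  have h3 : m < 2 := by exact_mod_cast h2
  omega

section
variable {a : ℝ} (ha : a ∈ Set.Icc (1.19 : ℝ) 1.196) (hga : Pool.Agent.H934R2.Ch.g a = a)
include ha hga

theorem U_inv : Inv (Basin 1 ∪ Basin a) := by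
  apply Inv.union2
  · exact basin_inv (by rw [Pool.Agent.H934R2.Ch.minPer_one]; norm_num)
  · exact basin_inv (by rw [Pool.Agent.H934R2.Ch.minPer_a ha hga]; norm_num)

theorem collatz_of (hD : Tendsto (bb (Basin 1 ∪ Basin a)) atTop (𝓝 1)) {n : ℕ} (hn : 1 ≤ n) :
    ∃ k, T^[k] n = 1 := by
  have hnull := full_of_one (U_inv ha hga) hD
  have hn' : (1 : ℝ) ≤ n := by exact_mod_cast hn
  have hb : 0 < b n := Pool.Agent.H934R2.Ch.b_pos n
  obtain ⟨x, hx, hxU⟩ : ∃ x, x ∈ Ioo (n : ℝ) (n + b n) ∧ x ∈ Basin 1 ∪ Basin a := by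
    by_contra hcon
    push Not at hcon
    have h1 : Ioo (n : ℝ) (n + b n) ⊆ Ioi 1 \ (Basin 1 ∪ Basin a) := by
      intro x hx
      exact ⟨by show (1 : ℝ) < x; linarith [hx.1], hcon x hx⟩
    have h2 := measure_mono_null h1 hnull
    rw [Real.volume_Ioo, ENNReal.ofReal_eq_zero] at h2
    linarith
  have hx' : x ∈ Icc (n : ℝ) (n + b n) := Ioo_subset_Icc_self hx
  rcases hxU with h | h
  · obtain ⟨m, hm, hym, hi, _⟩ := Pool.Agent.H934R2.Ch.attracts_D hn hx'
      (by rw [Pool.Agent.H934R2.Ch.minPer_one]; norm_num) h.2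
    obtain ⟨i, _, hi⟩ := hi 0
    have := small_m hm hym (by norm_num)
    exact ⟨i, by rw [hi, this]⟩
  · obtain ⟨m, hm, hym, hi, _⟩ := Pool.Agent.H934R2.Ch.attracts_D hn hx'
      (by rw [Pool.Agent.H934R2.Ch.minPer_a ha hga]; norm_num) h.2
    obtain ⟨i, _, hi⟩ := hi 0
    have := small_m hm hym (by linarith [ha.2])
    exact ⟨i, by rw [hi, this]⟩

omit ha hga in
theorem iter_known {z : ℝ} (hz : f (f z) = z) (i : ℕ) : f^[i] z = z ∨ f^[i] z = f z := by
  induction i with
  | zero => left; rfl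
  | succ i ih =>
    rw [Function.iterate_succ_apply']
    rcases ih with h | h
    · right; rw [h]
    · left; rw [h, hz]

theorem known_of_dens (hD : Tendsto (bb (Basin 1 ∪ Basin a)) atTop (𝓝 1)) {y : ℝ}
    (hy : AttrPt y) : Pool.Agent.H934R2.Ch.Known a y := by
  by_contra hcon
  unfold Pool.Agent.H934R2.Ch.Known at hcon
  push Not at hcon
  obtain ⟨n1, n2, n3, n4⟩ := hcon
  have hp1 : 0 < Function.minimalPeriod f 1 := by rw [Pool.Agent.H934R2.Ch.minPer_one]; norm_num
  have hpa : 0 < Function.minimalPeriod f a := by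
    rw [Pool.Agent.H934R2.Ch.minPer_a ha hga]; norm_num
  have hdis : Disjoint (Basin y) (Basin 1 ∪ Basin a) := by
    rw [Set.disjoint_left]
    intro x hx hxU
    rcases hxU with h | h
    · obtain ⟨i, hi⟩ := same_cycle hp1 hy.2.1 h.2 hx.2
      rcases iter_known (z := 1)
        (by rw [Pool.Agent.H934R2.Ch.f_one, Pool.Agent.H934R2.Ch.f_two]) i with h1 | h1
      · exact n1 (hi.trans h1)
      · exact n2 (hi.trans (h1.trans Pool.Agent.H934R2.Ch.f_one))
    · obtain ⟨i, hi⟩ := same_cycle hpa hy.2.1 h.2 hx.2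
      rcases iter_known (z := a) hga i with h1 | h1
      · exact n3 (hi.trans h1)
      · exact n4 (hi.trans h1)
  exact basin_pos hy (null_of_disj (basin_inv hy.2.1) (U_inv ha hga) hdis hD)

end

/-- an invariant set with densities clustering at one has density one -/
theorem one_of_cluster {U : Set ℝ} (hU : Inv U)
    (h : ∀ ε : ℝ, 0 < ε → ∀ M : ℕ, ∃ m : ℕ, M ≤ m ∧ 1 - ε < bb U m) :
    Tendsto (bb U) atTop (𝓝 1) := by
  obtain ⟨D, hD⟩ := dens_exists hU
  have h1 : D ≤ 1 := le_of_tendsto' hD fun k => bb_le_one _ _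
  have h2 : 1 ≤ D := by
    by_contra hcon
    rw [not_le] at hcon
    have h3 := hD.eventually_lt_const (by linarith : D < 1 - (1 - D) / 2)
    obtain ⟨M, hM⟩ := eventually_atTop.1 h3
    obtain ⟨m, hm, h4⟩ := h ((1 - D) / 2) (by linarith) M
    linarith [hM m hm]
  have : D = 1 := le_antisymm h1 h2
  rwa [this] at hD

end Pool.Agent.W40.Ch
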