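import Pool.Agent.W40.Ch.A8

/-!
Uniform descent in logarithmic time.
-/

set_option autoImplicit false

namespace Pool.Agent.W40.Ch

open Real Set MeasureTheory Filter Topology
open Pool.Agent.H934R2.Ch (f df hasDerivAt_f continuous_f continuous_df)

/-- contraction of the growing Lyapunov function -/
theorem lyap_c {m : ℕ} (hm : 400 ≤ m) :
    P (fun k => √(k : ℝ)) m ≤ 0.99 * √(m : ℝ) := by
  have hm' : (400 : ℝ) ≤ m := by exact_mod_cast hm
  have h1 := P_le_int (m := m) (u := fun k => √(k : ℝ))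
    (G := fun x => √((m : ℝ) + 2) * (1 + (-1 / 4) * cos (π * x) +
      (-1 / 40) * cos (π * x) ^ 2)) (by fun_prop) (by
      intro x hx
      have c1 := Real.neg_one_le_cos (π * x)
      have c2 := Real.cos_le_one (π * x)
      have hx0 : (0 : ℝ) < x := lt_of_lt_of_le (by linarith) hx.1
      have hfx : 0 < f x := f_pos hx0
      have hle := f_le_cell hx
      set y := 1 + -(cos (π * x)) / 2 with hy
      have hy0 : 0 < y := by rw [hy]; linarith
      have h2 := y_b hy0.le (by rw [hy]; linarith)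
      have h3 : √((⌊f x⌋₊ : ℕ) : ℝ) ≤ √(f x) := Real.sqrt_le_sqrt (Nat.floor_le hfx.le)
      refine h3.trans ((Real.sqrt_le_sqrt hle).trans ?_)
      rw [Real.sqrt_mul (by linarith)]
      apply mul_le_mul_of_nonneg_left _ (by positivity)
      refine h2.trans (le_of_eq ?_)
      rw [hy]; ring)
  rw [int_cos] at h1
  refine h1.trans ?_
  have h2 : √((m : ℝ) + 2) = √(m : ℝ) * √(1 + 2 / m) := by
    rw [← Real.sqrt_mul (by linarith)]
    congr 1
    field_simp
  have h3 := y_b (y := 1 + 2 / (m : ℝ)) (by positivity) (by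
    have : 2 / (m : ℝ) ≤ 2 / 400 := div_le_div_of_nonneg_left (by norm_num) (by norm_num) hm'
    linarith)
  have h4 : √(1 + 2 / (m : ℝ)) ≤ 1 + 1 / 400 := by
    refine h3.trans ?_
    have : 2 / (m : ℝ) ≤ 2 / 400 := div_le_div_of_nonneg_left (by norm_num) (by norm_num) hm'
    nlinarith [sq_nonneg (1 + 2 / (m : ℝ) - 1)]
  rw [h2]
  have hs : 0 < √(m : ℝ) := Real.sqrt_pos.2 (by linarith)
  have h5 : √(m : ℝ) * √(1 + 2 / (m : ℝ)) ≤ √(m : ℝ) * (1 + 1 / 400) :=
    mul_le_mul_of_nonneg_left h4 hs.le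
  nlinarith

/-- the points whose orbit does not go below `L` up to time `n` -/
def HighT (L n : ℕ) : Set ℝ := {x | ∀ k : ℕ, k ≤ n → (L : ℝ) ≤ f^[k] x}

theorem highT_meas (L n : ℕ) : MeasurableSet (HighT L n) := by
  have e : HighT L n = ⋂ k : ℕ, ⋂ _ : k ≤ n, (f^[k]) ⁻¹' Ici (L : ℝ) := by
    ext x; simp [HighT]
  rw [e]
  exact MeasurableSet.iInter fun k => MeasurableSet.iInter fun _ =>
    (continuous_f.iterate k).measurable measurableSet_Ici

theorem highT_step {L n : ℕ} {x : ℝ} (h : x ∈ HighT L (n + 1)) : f x ∈ HighT L n := by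
  intro k hk
  have := h (k + 1) (by omega)
  rwa [Function.iterate_succ_apply] at this

theorem highT_low {L m : ℕ} (n : ℕ) (h : m < L) : bb (HighT L n) m = 0 := by
  unfold bb
  have : HighT L n ∩ cell m = ∅ := by
    ext x
    simp only [mem_inter_iff, mem_empty_iff_false, iff_false, not_and]
    intro h1 h2
    have h3 : (L : ℝ) ≤ x := h1 0 (Nat.zero_le _)
    have h4 : ((m + 1 : ℕ) : ℝ) ≤ L := by exact_mod_cast h
    push_cast at h4
    linarith [h2.2]
  rw [this]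
  simp

theorem highT_ind {L : ℕ} (hL : 13824 ≤ L) (n : ℕ) : ∀ m, L / 2 ≤ m →
    bb (HighT L n) m ≤ 0.99 ^ n * √(m : ℝ) + 2200 * (g (L / 2) - g m) := by
  have hl1 : 1 ≤ L / 2 := by omega
  induction n with
  | zero =>
    intro m hm
    have h1 := bb_le_one (HighT L 0) m
    have h2 : (1 : ℝ) ≤ √(m : ℝ) := by
      rw [Real.one_le_sqrt]
      exact_mod_cast (by omega : 1 ≤ m)
    have h3 := g_anti hl1 hm
    rw [pow_zero, one_mul]
    linarith
  | succ n ih =>
    intro m hm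
    have h3 := g_anti hl1 hm
    rcases Nat.lt_or_ge m L with hmL | hmL
    · rw [highT_low _ hmL]
      have : 0 ≤ (0.99 : ℝ) ^ (n + 1) * √(m : ℝ) := by positivity
      linarith
    · have h13 : 13824 ≤ m := by omega
      obtain ⟨hok, hrr⟩ := ok h13
      have h2 := up_bound (highT_meas L n) hok
      have h4 : bb (HighT L (n + 1)) m ≤ volume.real (cell m ∩ f ⁻¹' HighT L n) := by
        unfold bb
        apply measureReal_mono _ (inter_fin _ _)
        rintro x ⟨hx1, hx2⟩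
        exact ⟨hx2, highT_step hx1⟩
      have h5 := qq_le_g (m := m) (by omega)
      have h6 : P (bb (HighT L n)) m ≤
          P (fun k => 0.99 ^ n * √(k : ℝ) + 2200 * (g (L / 2) - g k)) m :=
        P_mono fun k hk => ih k (by omega)
      have e1 := P_add (fun k : ℕ => 0.99 ^ n * √(k : ℝ)) (fun k => 2200 * (g (L / 2) - g k)) m
      have e2 := P_smul (0.99 ^ n) (fun k : ℕ => √(k : ℝ)) m
      have e3 := P_smul 2200 (fun k : ℕ => g (L / 2) - g k) m
      have e4 := P_sub (fun _ => g (L / 2)) g m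
      rw [P_const] at e4
      rw [e1, e2, e3, e4] at h6
      have h7 := lyap_a (m := m) (by omega)
      have h8 := lyap_c (m := m) (by omega)
      have h9 : (0.99 : ℝ) ^ n * P (fun k : ℕ => √(k : ℝ)) m ≤ 0.99 ^ n * (0.99 * √(m : ℝ)) :=
        mul_le_mul_of_nonneg_left h8 (by positivity)
      rw [pow_succ]
      linarith

theorem g_half {L : ℕ} (hL : 2 ≤ L) : g (L / 2) ≤ 1.32 * (L : ℝ) ^ (-(1 / 4) : ℝ) := by
  have hL' : (2 : ℝ) ≤ L := by exact_mod_cast hL
  have h1 : g (L / 2) ≤ ((L : ℝ) / 3) ^ (-(1 / 4) : ℝ) := by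
    unfold g
    apply Real.rpow_le_rpow_of_nonpos (by linarith)
    · have : L ≤ 3 * (L / 2) := by omega
      have h2 : (L : ℝ) ≤ 3 * ((L / 2 : ℕ) : ℝ) := by exact_mod_cast this
      linarith
    · norm_num
  have h2 : ((L : ℝ) / 3) ^ (-(1 / 4) : ℝ) = (L : ℝ) ^ (-(1 / 4) : ℝ) * (3 : ℝ) ^ (1 / 4 : ℝ) := by
    rw [Real.div_rpow (by linarith) (by norm_num), Real.rpow_neg (by norm_num : (0 : ℝ) ≤ 3)]
    field_simp
  have h3 : (3 : ℝ) ^ (1 / 4 : ℝ) ≤ 1.32 := by
    have : (3 : ℝ) ≤ 1.32 ^ (4 : ℝ) := by norm_num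
    calc (3 : ℝ) ^ (1 / 4 : ℝ) ≤ (1.32 ^ (4 : ℝ)) ^ (1 / 4 : ℝ) :=
          Real.rpow_le_rpow (by norm_num) this (by norm_num)
      _ = 1.32 := by rw [← Real.rpow_mul (by norm_num)]; norm_num
  rw [h2] at h1
  have h4 : (L : ℝ) ^ (-(1 / 4) : ℝ) * (3 : ℝ) ^ (1 / 4 : ℝ) ≤ (L : ℝ) ^ (-(1 / 4) : ℝ) * 1.32 :=
    mul_le_mul_of_nonneg_left h3 (by positivity)
  linarith

theorem pow_small {L m n : ℕ} (hL : 1 ≤ L) (hm : L ≤ m) (hn : 75 * Real.log m ≤ n) :
    (0.99 : ℝ) ^ n * √(m : ℝ) ≤ (L : ℝ) ^ (-(1 / 4) : ℝ) := by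
  have hL' : (1 : ℝ) ≤ L := by exact_mod_cast hL
  have hm' : (L : ℝ) ≤ m := by exact_mod_cast hm
  have hm0 : (0 : ℝ) < m := by linarith
  have h1 : (0.99 : ℝ) ^ n ≤ (m : ℝ) ^ (-(3 / 4) : ℝ) := by
    rw [Real.rpow_def_of_pos hm0]
    have h2 : (0.99 : ℝ) ≤ Real.exp (-0.01) := by
      have := Real.add_one_le_exp (-0.01 : ℝ)
      linarith
    calc (0.99 : ℝ) ^ n ≤ (Real.exp (-0.01)) ^ n := pow_le_pow_left₀ (by norm_num) h2 n
      _ = Real.exp (n * (-0.01)) := by rw [← Real.exp_nat_mul]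
      _ ≤ _ := by
        apply Real.exp_le_exp.2
        linarith
  have h3 : √(m : ℝ) = (m : ℝ) ^ (1 / 2 : ℝ) := Real.sqrt_eq_rpow _
  rw [h3]
  calc (0.99 : ℝ) ^ n * (m : ℝ) ^ (1 / 2 : ℝ)
      ≤ (m : ℝ) ^ (-(3 / 4) : ℝ) * (m : ℝ) ^ (1 / 2 : ℝ) :=
        mul_le_mul_of_nonneg_right h1 (by positivity)
    _ = (m : ℝ) ^ (-(1 / 4) : ℝ) := by
        rw [← Real.rpow_add hm0]; norm_num
    _ ≤ _ := Real.rpow_le_rpow_of_nonpos (by linarith) hm' (by norm_num)

/-- the final bound -/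
theorem highT_final (L m n : ℕ) (hL : 1 ≤ L) (hn : 75 * Real.log m ≤ n) :
    bb (HighT L n) m ≤ 3000 * (L : ℝ) ^ (-(1 / 4) : ℝ) := by
  have hL' : (1 : ℝ) ≤ L := by exact_mod_cast hL
  have hp : 0 ≤ (L : ℝ) ^ (-(1 / 4) : ℝ) := by positivity
  rcases Nat.lt_or_ge L 13824 with h | h
  · refine (bb_le_one _ _).trans ?_
    have h1 : (20736 : ℝ) ^ (-(1 / 4) : ℝ) ≤ (L : ℝ) ^ (-(1 / 4) : ℝ) := by
      apply Real.rpow_le_rpow_of_nonpos (by linarith)
      · have : (L : ℝ) < 13824 := by exact_mod_cast h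
        linarith
      · norm_num
    have h2 : (20736 : ℝ) ^ (-(1 / 4) : ℝ) = 1 / 12 := by
      have : (20736 : ℝ) = 12 ^ (4 : ℝ) := by norm_num
      rw [this, ← Real.rpow_mul (by norm_num)]
      norm_num
    rw [h2] at h1
    linarith
  · rcases Nat.lt_or_ge m L with hmL | hmL
    · rw [highT_low _ hmL]
      positivity
    · have h1 := highT_ind h n m (by omega)
      have h2 := pow_small hL hmL hn
      have h3 := g_half (L := L) (by omega)
      have h4 := g_nonneg m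
      linarith

end Pool.Agent.W40.Ch
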