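import Pool.Agent.W40.Ch.A1

/-!
Transition weights between integer cells and the one step estimates.
-/

set_option autoImplicit false

namespace Pool.Agent.W40.Ch

open Real Set MeasureTheory Filter Topology
open Pool.Agent.H934R2.Ch (f df hasDerivAt_f continuous_f continuous_df)

/-- the cell `[k, k+1)` -/
def cell (k : ℕ) : Set ℝ := Ico (k : ℝ) (k + 1)

theorem cell_meas (k : ℕ) : MeasurableSet (cell k) := measurableSet_Ico

theorem pre_meas {S : Set ℝ} (hS : MeasurableSet S) : MeasurableSet (f ⁻¹' S) :=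
  continuous_f.measurable hS

theorem fin_of_sub {A : Set ℝ} {a b : ℝ} (h : A ⊆ Icc a b) : volume A ≠ ⊤ :=
  ((measure_mono h).trans_lt measure_Icc_lt_top).ne

theorem cell_sub (k : ℕ) : cell k ⊆ Icc (k : ℝ) (k + 1) := Ico_subset_Icc_self

theorem inter_fin (A : Set ℝ) (k : ℕ) : volume (cell k ∩ A) ≠ ⊤ :=
  fin_of_sub (inter_subset_left.trans (cell_sub k))

theorem inter_fin' (A : Set ℝ) (k : ℕ) : volume (A ∩ cell k) ≠ ⊤ :=
  fin_of_sub (inter_subset_right.trans (cell_sub k))

/-- change of variables with bounds for the derivative -/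
theorem vol_image {A : Set ℝ} (hA : MeasurableSet A) (hinj : InjOn f A) {a b : ℝ}
    (hsub : A ⊆ Icc a b) (hfin : volume (f '' A) ≠ ⊤) {c C : ℝ} (hc : 0 ≤ c)
    (h : ∀ x ∈ A, c ≤ |df x| ∧ |df x| ≤ C) :
    c * volume.real A ≤ volume.real (f '' A) ∧ volume.real (f '' A) ≤ C * volume.real A := by
  have hAf : volume A ≠ ⊤ := fin_of_sub hsub
  have h1 := lintegral_image_eq_lintegral_abs_deriv_mul hA
    (fun x _ => (hasDerivAt_f x).hasDerivWithinAt) hinj (fun _ => 1)
  simp only [mul_one, lintegral_const, Measure.restrict_apply, MeasurableSet.univ, univ_inter,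
    one_mul] at h1
  constructor
  · have h2 : ENNReal.ofReal c * volume A ≤ volume (f '' A) := by
      rw [h1]
      calc ENNReal.ofReal c * volume A = ∫⁻ _ in A, ENNReal.ofReal c := by
            rw [lintegral_const, Measure.restrict_apply MeasurableSet.univ, univ_inter]
        _ ≤ _ := setLIntegral_mono' hA fun x hx => ENNReal.ofReal_le_ofReal (h x hx).1
    have h3 := ENNReal.toReal_mono hfin h2
    rwa [ENNReal.toReal_mul, ENNReal.toReal_ofReal hc] at h3
  · by_cases hne : A.Nonempty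
    · obtain ⟨x, hx⟩ := hne
      have hC : 0 ≤ C := (abs_nonneg _).trans (h x hx).2
      have h2 : volume (f '' A) ≤ ENNReal.ofReal C * volume A := by
        rw [h1]
        calc ∫⁻ x in A, ENNReal.ofReal |df x| ≤ ∫⁻ _ in A, ENNReal.ofReal C :=
              setLIntegral_mono' hA fun x hx => ENNReal.ofReal_le_ofReal (h x hx).2
          _ = _ := by
            rw [lintegral_const, Measure.restrict_apply MeasurableSet.univ, univ_inter]
      have h3 := ENNReal.toReal_mono (ENNReal.mul_ne_top ENNReal.ofReal_ne_top hAf) h2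
      rwa [ENNReal.toReal_mul, ENNReal.toReal_ofReal hC] at h3
    · rw [not_nonempty_iff_eq_empty] at hne
      subst hne
      simp

/-- middle part of a cell -/
def mid (m : ℕ) (q : ℝ) : Set ℝ := Icc (m + q) (m + 1 - q)

theorem abs_f_sub {m : ℕ} {q x y : ℝ} (hq : 0 ≤ q) (hmq : 1 ≤ m * q) (hx : x ∈ mid m q)
    (hy : y ∈ mid m q) : m * q * |x - y| ≤ |f x - f y| := by
  have key : ∀ x y : ℝ, x ∈ mid m q → y ∈ mid m q → x ≤ y → m * q * (y - x) ≤ |f y - f x| := by
    intro x y hx hy hxy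
    refine (f_expand hq hmq hx.1 hxy hy.2).trans ?_
    have : |f y - f x| = |(-1 : ℝ) ^ m * (f y - f x)| := by
      rw [abs_mul, abs_pow, abs_neg, abs_one, one_pow, one_mul]
    rw [this]
    exact le_abs_self _
  rcases le_total x y with h | h
  · have := key x y hx hy h
    rw [abs_sub_comm x y, abs_of_nonneg (by linarith : 0 ≤ y - x), abs_sub_comm (f x)]
    exact this
  · have := key y x hy hx h
    rw [abs_of_nonneg (by linarith : 0 ≤ x - y)]
    exact this

theorem df_var {m : ℕ} {x y : ℝ} (hx : x ∈ Icc (m : ℝ) (m + 1)) (hy : y ∈ Icc (m : ℝ) (m + 1)) :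
    |df x - df y| ≤ (5 * m + 11) * |x - y| := by
  have h := Convex.norm_image_sub_le_of_norm_hasDerivWithin_le (f := df) (f' := ddf)
    (s := Icc (m : ℝ) (m + 1)) (C := 5 * m + 11) (x := y) (y := x)
    (fun z _ => (hasDerivAt_df z).hasDerivWithinAt)
    (fun z hz => by
      have hz0 : (0 : ℝ) ≤ z := le_trans (by positivity) hz.1
      have h1 := ddf_abs_le hz0
      rw [Real.norm_eq_abs]
      linarith [hz.2]) (convex_Icc _ _) hy hx
  exact h

/-- the cell estimate -/
theorem cell_est {m k : ℕ} {q : ℝ} (hq : 0 < q) (hmq : 1 ≤ m * q)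
    (hr : (5 * m + 11) / (m * q) ^ 2 ≤ 1 / 4) (hfull : cell k ⊆ f '' mid m q) {S : Set ℝ}
    (hS : MeasurableSet S) :
    (1 - 3 * ((5 * m + 11) / (m * q) ^ 2)) *
        (volume.real (S ∩ cell k) * volume.real (mid m q ∩ f ⁻¹' cell k)) ≤
      volume.real ((mid m q ∩ f ⁻¹' cell k) ∩ f ⁻¹' S) ∧
    volume.real ((mid m q ∩ f ⁻¹' cell k) ∩ f ⁻¹' S) ≤
      (1 + 3 * ((5 * m + 11) / (m * q) ^ 2)) *
        (volume.real (S ∩ cell k) * volume.real (mid m q ∩ f ⁻¹' cell k)) := by
  set ρ : ℝ := (5 * m + 11) / (m * q) ^ 2 with hρ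
  have hρ0 : 0 ≤ ρ := by positivity
  set E := mid m q ∩ f ⁻¹' cell k with hE
  have hEm : MeasurableSet E := measurableSet_Icc.inter (pre_meas (cell_meas k))
  have hmidsub : mid m q ⊆ Icc (m : ℝ) (m + 1) := Icc_subset_Icc (by linarith) (by linarith)
  have hEs : E ⊆ Icc (m : ℝ) (m + 1) := inter_subset_left.trans hmidsub
  obtain ⟨x0, hx0, hx0k⟩ := hfull (left_mem_Ico.2 (by linarith) : (k : ℝ) ∈ cell k)
  have hx0E : x0 ∈ E := ⟨hx0, by rw [mem_preimage, hx0k]; exact left_mem_Ico.2 (by linarith)⟩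
  set d0 := |df x0| with hd0
  have hd0lb : m * q ≤ d0 := df_mid_abs hq.le hmq hx0.1 hx0.2
  have hd0pos : 0 < d0 := by linarith
  have hvar : ∀ x ∈ E, |(|df x| - d0)| ≤ ρ * d0 := by
    intro x hx
    have h1 : |(|df x| - d0)| ≤ |df x - df x0| := abs_abs_sub_abs_le_abs_sub _ _
    have h2 := df_var (hEs hx) (hEs hx0E)
    have h3 := abs_f_sub hq.le hmq hx.1 hx0E.1
    have h4 : |f x - f x0| ≤ 1 := by
      have ha : f x ∈ cell k := hx.2
      have hb : f x0 ∈ cell k := hx0E.2
      rw [abs_le]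
      constructor <;> linarith [ha.1, ha.2, hb.1, hb.2]
    have h5 : |x - x0| ≤ 1 / (m * q) := by
      rw [le_div_iff₀ (by linarith)]
      linarith
    have h6 : (5 * m + 11) * |x - x0| ≤ (5 * m + 11) * (1 / (m * q)) :=
      mul_le_mul_of_nonneg_left h5 (by positivity)
    have h7 : (5 * m + 11) * (1 / (m * q)) = ρ * (m * q) := by
      rw [hρ]
      have : (m : ℝ) * q ≠ 0 := by linarith
      field_simp
    have h8 : ρ * (m * q) ≤ ρ * d0 := mul_le_mul_of_nonneg_left hd0lb hρ0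
    linarith
  have hbd : ∀ A ⊆ E, ∀ x ∈ A, (1 - ρ) * d0 ≤ |df x| ∧ |df x| ≤ (1 + ρ) * d0 := by
    intro A hA x hx
    have := abs_le.1 (hvar x (hA hx))
    constructor <;> linarith [this.1, this.2]
  have hc : 0 ≤ (1 - ρ) * d0 := mul_nonneg (by linarith) hd0pos.le
  have himE : f '' E = cell k := by
    rw [hE, image_inter_preimage]
    exact inter_eq_right.2 hfull
  have himA : f '' (E ∩ f ⁻¹' S) = S ∩ cell k := by
    rw [image_inter_preimage, himE, inter_comm]
  have hinj : InjOn f E := (f_injOn hq.le hmq).mono inter_subset_left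
  have e1 := vol_image hEm hinj hEs (by rw [himE]; exact fin_of_sub (cell_sub k)) hc
    (hbd E Subset.rfl)
  have e2 := vol_image (hEm.inter (pre_meas hS)) (hinj.mono inter_subset_left)
    (inter_subset_left.trans hEs) (by rw [himA]; exact inter_fin' S k) hc
    (hbd _ inter_subset_left)
  rw [himE] at e1
  rw [himA] at e2
  have hcell : volume.real (cell k) = 1 := by
    unfold cell
    rw [Real.volume_real_Ico_of_le (by linarith)]
    ring
  rw [hcell] at e1
  set a := volume.real (E ∩ f ⁻¹' S) with ha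
  set s := volume.real (S ∩ cell k) with hs
  set e := volume.real E with he
  have ha0 : 0 ≤ a := measureReal_nonneg
  have hs0 : 0 ≤ s := measureReal_nonneg
  have he0 : 0 ≤ e := measureReal_nonneg
  -- (1-ρ) d0 e ≤ 1 ≤ (1+ρ) d0 e ;  (1-ρ) d0 a ≤ s ≤ (1+ρ) d0 a
  have hq1 : (1 - 3 * ρ) * (1 + ρ) ≤ 1 - ρ := by nlinarith
  have hq2 : 1 + ρ ≤ (1 + 3 * ρ) * (1 - ρ) := by nlinarith
  constructor
  · -- (1 - 3ρ) s e ≤ a
    -- s ≤ (1+ρ) d0 a, e ≤ 1/((1-ρ) d0)
    have h1 : (1 - 3 * ρ) * (s * e) ≤ (1 - 3 * ρ) * ((1 + ρ) * d0 * a * e) := by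
      apply mul_le_mul_of_nonneg_left _ (by linarith)
      exact mul_le_mul_of_nonneg_right e2.2 he0
    have h2 : (1 - 3 * ρ) * ((1 + ρ) * d0 * a * e) = ((1 - 3 * ρ) * (1 + ρ)) * (d0 * a * e) := by
      ring
    have h3 : ((1 - 3 * ρ) * (1 + ρ)) * (d0 * a * e) ≤ (1 - ρ) * (d0 * a * e) :=
      mul_le_mul_of_nonneg_right hq1 (by positivity)
    have h4 : (1 - ρ) * (d0 * a * e) = a * ((1 - ρ) * d0 * e) := by ring
    have h5 : a * ((1 - ρ) * d0 * e) ≤ a * 1 := mul_le_mul_of_nonneg_left e1.1 ha0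
    linarith
  · -- a ≤ (1+3ρ) s e
    have h1 : a * 1 ≤ a * ((1 + ρ) * d0 * e) := mul_le_mul_of_nonneg_left e1.2 ha0
    have h2 : a * ((1 + ρ) * d0 * e) = (1 + ρ) * (d0 * a * e) := by ring
    have h3 : (1 + ρ) * (d0 * a * e) ≤ ((1 + 3 * ρ) * (1 - ρ)) * (d0 * a * e) :=
      mul_le_mul_of_nonneg_right hq2 (by positivity)
    have h4 : ((1 + 3 * ρ) * (1 - ρ)) * (d0 * a * e) = (1 + 3 * ρ) * (((1 - ρ) * d0 * a) * e) := by
      ring
    have h5 : (1 + 3 * ρ) * (((1 - ρ) * d0 * a) * e) ≤ (1 + 3 * ρ) * (s * e) := by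
      apply mul_le_mul_of_nonneg_left _ (by linarith)
      exact mul_le_mul_of_nonneg_right e2.1 he0
    linarith

/-- cells met by the image of the inner part are fully covered -/
theorem full_cell {m : ℕ} {q x : ℝ} (hq : 0 < q) (hmq : 1 ≤ m * q) (hmqq : 1 ≤ m * q * q)
    (h1 : m + 2 * q ≤ x) (h2 : x ≤ m + 1 - 2 * q) : cell ⌊f x⌋₊ ⊆ f '' mid m q := by
  intro y hy
  have hx0 : 0 ≤ x := le_trans (by positivity) h1
  have hfx : 0 ≤ f x := le_trans (by linarith) (f_lb hx0)
  have hfl := Nat.floor_le hfx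
  have hfl2 := Nat.lt_floor_add_one (f x)
  have hy1 : |y - f x| ≤ 1 := by
    rw [abs_le]
    constructor <;> linarith [hy.1, hy.2]
  have hab : (m : ℝ) + q ≤ m + 1 - q := by linarith
  have e1 := f_expand (x := m + q) (y := x) hq.le hmq le_rfl (by linarith) (by linarith)
  have e2 := f_expand (x := x) (y := m + 1 - q) hq.le hmq (by linarith) (by linarith) le_rfl
  have g1 : 1 ≤ (-1 : ℝ) ^ m * (f x - f (m + q)) := by
    refine le_trans ?_ e1
    calc (1 : ℝ) ≤ m * q * q := hmqq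
      _ ≤ m * q * (x - (m + q)) := mul_le_mul_of_nonneg_left (by linarith) (by positivity)
  have g2 : 1 ≤ (-1 : ℝ) ^ m * (f (m + 1 - q) - f x) := by
    refine le_trans ?_ e2
    calc (1 : ℝ) ≤ m * q * q := hmqq
      _ ≤ m * q * (m + 1 - q - x) := mul_le_mul_of_nonneg_left (by linarith) (by positivity)
  have hivt := intermediate_value_uIcc (a := (m : ℝ) + q) (b := m + 1 - q)
    (continuous_f.continuousOn (s := uIcc ((m : ℝ) + q) (m + 1 - q)))
  rw [uIcc_of_le hab] at hivt
  apply hivt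
  have := abs_le.1 hy1
  rw [mem_uIcc]
  rcases neg_one_pow_eq_or ℝ m with h | h <;> rw [h] at g1 g2
  · left; constructor <;> linarith [this.1, this.2]
  · right; constructor <;> linarith [this.1, this.2]

/-- the transition weight -/
noncomputable def w (m k : ℕ) : ℝ := volume.real (cell m ∩ f ⁻¹' cell k)

open Classical in
/-- the part of the transition weight coming from fully covered cells -/
noncomputable def wE (q : ℝ) (m k : ℕ) : ℝ :=
  if cell k ⊆ f '' mid m q then volume.real (mid m q ∩ f ⁻¹' cell k) else 0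

/-- size of a set in a cell -/
noncomputable def bb (B : Set ℝ) (k : ℕ) : ℝ := volume.real (B ∩ cell k)

/-- the transition operator -/
noncomputable def P (u : ℕ → ℝ) (m : ℕ) : ℝ := ∑ k ∈ Finset.range (2 * m + 3), w m k * u k

/-- the reduced transition operator -/
noncomputable def Q (q : ℝ) (u : ℕ → ℝ) (m : ℕ) : ℝ :=
  ∑ k ∈ Finset.range (2 * m + 3), wE q m k * u k

theorem w_nonneg (m k : ℕ) : 0 ≤ w m k := measureReal_nonneg

theorem wE_nonneg (q : ℝ) (m k : ℕ) : 0 ≤ wE q m k := by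
  unfold wE; split_ifs
  · exact measureReal_nonneg
  · exact le_rfl

theorem bb_nonneg (B : Set ℝ) (k : ℕ) : 0 ≤ bb B k := measureReal_nonneg

theorem cell_vol (k : ℕ) : volume.real (cell k) = 1 := by
  unfold cell
  rw [Real.volume_real_Ico_of_le (by linarith)]
  ring

theorem bb_le_one (B : Set ℝ) (k : ℕ) : bb B k ≤ 1 := by
  rw [← cell_vol k]
  exact measureReal_mono inter_subset_right (fin_of_sub (cell_sub k))

theorem mid_sub_cell {m : ℕ} {q : ℝ} (hq : 0 < q) : mid m q ⊆ cell m := by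
  intro x hx
  exact ⟨by linarith [hx.1], by linarith [hx.2]⟩

theorem wE_le {q : ℝ} (hq : 0 < q) (m k : ℕ) : wE q m k ≤ w m k := by
  unfold wE w; split_ifs
  · exact measureReal_mono (inter_subset_inter_left _ (mid_sub_cell hq)) (inter_fin _ _)
  · exact measureReal_nonneg

theorem cells_disj : Pairwise (Function.onFun Disjoint cell) := by
  intro i j hij
  rw [Function.onFun, Set.disjoint_left]
  intro x hx hy
  apply hij
  have h1 : (i : ℝ) < j + 1 := lt_of_le_of_lt hx.1 hy.2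
  have h2 : (j : ℝ) < i + 1 := lt_of_le_of_lt hy.1 hx.2
  have h3 : i < j + 1 := by exact_mod_cast h1
  have h4 : j < i + 1 := by exact_mod_cast h2
  omega

theorem mem_cell_floor {y : ℝ} (hy : 0 ≤ y) : y ∈ cell ⌊y⌋₊ :=
  ⟨Nat.floor_le hy, Nat.lt_floor_add_one y⟩

theorem floor_range {m : ℕ} {x : ℝ} (hx : x ∈ cell m) : ⌊f x⌋₊ ∈ Finset.range (2 * m + 3) := by
  have hx0 : (0 : ℝ) ≤ x := le_trans (by positivity) hx.1
  rw [Finset.mem_range]
  have h := f_ub hx0
  have h2 : f x < (2 * m + 3 : ℕ) := by push_cast; linarith [hx.2]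
  exact (Nat.floor_lt (le_trans (by linarith) (f_lb hx0))).2 h2

/-- decomposition of a part of a cell -/
theorem decomp (m : ℕ) {A : Set ℝ} (hA : MeasurableSet A) :
    volume.real (cell m ∩ A) =
      ∑ k ∈ Finset.range (2 * m + 3), volume.real ((cell m ∩ f ⁻¹' cell k) ∩ A) := by
  have hun := measureReal_biUnion_finset (μ := volume) (s := Finset.range (2 * m + 3))
    (f := fun k => (cell m ∩ f ⁻¹' cell k) ∩ A)
    (by
      intro i _ j _ hij
      rw [Function.onFun, Set.disjoint_left]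
      intro x hx hy
      exact Set.disjoint_left.1 (cells_disj hij) hx.1.2 hy.1.2)
    (fun k _ => ((cell_meas m).inter (pre_meas (cell_meas k))).inter hA)
    (fun k _ => by
      rw [inter_assoc]
      exact inter_fin _ _)
  rw [← hun]
  congr 1
  ext x
  simp only [mem_inter_iff, mem_iUnion, mem_preimage, exists_prop]
  constructor
  · rintro ⟨h1, h2⟩
    have hx0 : (0 : ℝ) ≤ x := le_trans (by positivity) h1.1
    exact ⟨_, floor_range h1, ⟨h1, mem_cell_floor (le_trans (by linarith) (f_lb hx0))⟩, h2⟩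
  · rintro ⟨k, _, ⟨h1, _⟩, h2⟩
    exact ⟨h1, h2⟩

theorem w_sum (m : ℕ) : ∑ k ∈ Finset.range (2 * m + 3), w m k = 1 := by
  have h := decomp m (A := univ) MeasurableSet.univ
  simp only [inter_univ] at h
  rw [cell_vol] at h
  exact h.symm

theorem P_one (m : ℕ) : P (fun _ => 1) m = 1 := by
  unfold P; simp only [mul_one]; exact w_sum m

theorem w_pos_range {m k : ℕ} (h : w m k ≠ 0) : m / 2 ≤ k := by
  by_contra hcon
  apply h
  unfold w
  have : cell m ∩ f ⁻¹' cell k = ∅ := by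
    ext x
    simp only [mem_inter_iff, mem_preimage, mem_empty_iff_false, iff_false, not_and]
    intro h1 h2
    have hx0 : (0 : ℝ) ≤ x := le_trans (by positivity) h1.1
    have h3 := f_lb hx0
    have h4 : ((k + 1 : ℕ) : ℝ) ≤ ((m / 2 : ℕ) : ℝ) := by
      exact_mod_cast (by omega : k + 1 ≤ m / 2)
    have h5 : ((m / 2 : ℕ) : ℝ) ≤ (m : ℝ) / 2 := Nat.cast_div_le
    push_cast at h4
    linarith [h1.1, h2.2]
  rw [this]
  simp

end Pool.Agent.W40.Ch
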