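import Pool.Agent.W40.Ch.A2

/-!
One step estimates for the distribution of an invariant set in the cells.
-/

set_option autoImplicit false

namespace Pool.Agent.W40.Ch

open Real Set MeasureTheory Filter Topology
open Pool.Agent.H934R2.Ch (f df hasDerivAt_f continuous_f continuous_df)

/-- measurable sets which are completely invariant on the positive half line -/
def Inv (B : Set ℝ) : Prop := MeasurableSet B ∧ ∀ x : ℝ, 0 < x → (x ∈ B ↔ f x ∈ B)

theorem bb_eq {B : Set ℝ} (hB : Inv B) {m : ℕ} (hm : 1 ≤ m) :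
    bb B m = volume.real (cell m ∩ f ⁻¹' B) := by
  unfold bb
  congr 1
  ext x
  simp only [mem_inter_iff, mem_preimage]
  constructor
  · rintro ⟨h1, h2⟩
    have : 0 < x := lt_of_lt_of_le (by exact_mod_cast hm) h2.1
    exact ⟨h2, (hB.2 x this).1 h1⟩
  · rintro ⟨h2, h1⟩
    have : 0 < x := lt_of_lt_of_le (by exact_mod_cast hm) h2.1
    exact ⟨(hB.2 x this).2 h1, h2⟩

/-- the hypotheses on `m` and `q` used for the estimates -/
structure OK (m : ℕ) (q : ℝ) : Prop where
  q0 : 0 < q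
  mq : 1 ≤ m * q
  mqq : 1 ≤ m * q * q
  r : (5 * m + 11) / (m * q) ^ 2 ≤ 1 / 4

theorem OK.m1 {m : ℕ} {q : ℝ} (h : OK m q) : 1 ≤ m := by
  rcases Nat.eq_zero_or_pos m with h0 | h0
  · have := h.mq
    rw [h0] at this
    simp at this
    linarith
  · exact h0

/-- relative error -/
noncomputable def rr (m : ℕ) (q : ℝ) : ℝ := (5 * m + 11) / (m * q) ^ 2

theorem rr_nonneg (m : ℕ) (q : ℝ) : 0 ≤ rr m q := by unfold rr; positivity

theorem Q_le_of {q : ℝ} {m : ℕ} {g : ℕ → ℝ} {G : ℝ}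
    (h : ∀ k ∈ Finset.range (2 * m + 3), wE q m k ≠ 0 → g k ≤ G) :
    Q q g m ≤ (∑ k ∈ Finset.range (2 * m + 3), wE q m k) * G := by
  unfold Q
  rw [Finset.sum_mul]
  apply Finset.sum_le_sum
  intro k hk
  by_cases h0 : wE q m k = 0
  · rw [h0]; simp
  · exact mul_le_mul_of_nonneg_left (h k hk h0) (wE_nonneg _ _ _)

theorem step_lower {B : Set ℝ} (hB : Inv B) {m : ℕ} {q : ℝ} (h : OK m q) :
    (1 - 3 * rr m q) * Q q (bb B) m ≤ bb B m := by
  rw [bb_eq hB h.m1, decomp m (pre_meas hB.1)]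
  unfold Q
  rw [Finset.mul_sum]
  apply Finset.sum_le_sum
  intro k _
  unfold wE
  split_ifs with hf
  · have h1 := (cell_est h.q0 h.mq h.r hf hB.1).1
    have h2 : volume.real ((mid m q ∩ f ⁻¹' cell k) ∩ f ⁻¹' B) ≤
        volume.real ((cell m ∩ f ⁻¹' cell k) ∩ f ⁻¹' B) := by
      apply measureReal_mono
      · exact inter_subset_inter_left _ (inter_subset_inter_left _ (mid_sub_cell h.q0))
      · rw [inter_assoc]; exact inter_fin _ _
    refine le_trans ?_ (h1.trans h2)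
    rw [mul_comm (volume.real (mid m q ∩ f ⁻¹' cell k))]
    exact le_rfl
  · simp only [zero_mul, mul_zero]
    exact measureReal_nonneg

/-- the inner part is covered by fully covered cells -/
theorem inner_sub {m : ℕ} {q : ℝ} (h : OK m q) {x : ℝ} (h1 : m + 2 * q ≤ x)
    (h2 : x ≤ m + 1 - 2 * q) :
    ⌊f x⌋₊ ∈ Finset.range (2 * m + 3) ∧ cell ⌊f x⌋₊ ⊆ f '' mid m q ∧ x ∈ mid m q ∧
      f x ∈ cell ⌊f x⌋₊ := by
  have hq := h.q0
  have hx0 : (0 : ℝ) ≤ x := le_trans (by positivity) h1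
  have hxm : x ∈ cell m := ⟨by linarith, by linarith⟩
  exact ⟨floor_range hxm, full_cell h.q0 h.mq h.mqq h1 h2, ⟨by linarith, by linarith⟩,
    mem_cell_floor (le_trans (by linarith) (f_lb hx0))⟩

/-- rest of the cell -/
def rest (m : ℕ) (q : ℝ) : Set ℝ := Ico (m : ℝ) (m + 2 * q) ∪ Ioc (m + 1 - 2 * q) (m + 1)

theorem rest_vol {m : ℕ} {q : ℝ} (hq : 0 < q) : volume.real (rest m q) ≤ 4 * q := by
  unfold rest
  refine (measureReal_union_le _ _).trans ?_
  rw [Real.volume_real_Ico_of_le (by linarith), Real.volume_real_Ioc_of_le (by linarith)]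
  linarith

theorem rest_fin (m : ℕ) (q : ℝ) : volume (rest m q) ≠ ⊤ := by
  unfold rest
  refine ((measure_union_le _ _).trans_lt ?_).ne
  rw [Real.volume_Ico, Real.volume_Ioc]
  exact ENNReal.add_lt_top.2 ⟨ENNReal.ofReal_lt_top, ENNReal.ofReal_lt_top⟩

theorem biU_fin (m : ℕ) (q : ℝ) (A : ℕ → Set ℝ) :
    volume (⋃ k ∈ Finset.range (2 * m + 3), (mid m q ∩ A k)) ≠ ⊤ := by
  apply fin_of_sub (a := m + q) (b := m + 1 - q)
  intro x hx
  simp only [mem_iUnion] at hx
  obtain ⟨k, _, h, _⟩ := hx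
  exact h

theorem wE_sum {m : ℕ} {q : ℝ} (h : OK m q) :
    1 - 4 * q ≤ ∑ k ∈ Finset.range (2 * m + 3), wE q m k := by
  classical
  -- cell m ⊆ rest ∪ ⋃ full
  have hsub : cell m ⊆ rest m q ∪ ⋃ k ∈ Finset.range (2 * m + 3),
      (mid m q ∩ (if cell k ⊆ f '' mid m q then f ⁻¹' cell k else ∅)) := by
    intro x hx
    by_cases h1 : x < m + 2 * q
    · left; left; exact ⟨hx.1, h1⟩
    · by_cases h2 : m + 1 - 2 * q < x
      · left; right; exact ⟨h2, hx.2.le⟩
      · right
        rw [not_lt] at h1 h2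
        obtain ⟨a, b, c, d⟩ := inner_sub h h1 h2
        simp only [mem_iUnion]
        refine ⟨_, a, c, ?_⟩
        rw [if_pos b]
        exact d
  have h1 : volume.real (cell m) ≤ volume.real (rest m q) +
      volume.real (⋃ k ∈ Finset.range (2 * m + 3),
      (mid m q ∩ (if cell k ⊆ f '' mid m q then f ⁻¹' cell k else ∅))) := by
    refine (measureReal_mono hsub ?_).trans (measureReal_union_le _ _)
    refine ((measure_union_le _ _).trans_lt (ENNReal.add_lt_top.2 ⟨?_, ?_⟩)).ne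
    · exact (rest_fin m q).lt_top
    · exact (biU_fin m q _).lt_top
  rw [cell_vol] at h1
  have h2 := measureReal_biUnion_finset_le (μ := volume) (Finset.range (2 * m + 3))
    (fun k => mid m q ∩ (if cell k ⊆ f '' mid m q then f ⁻¹' cell k else ∅))
  have h3 : ∑ k ∈ Finset.range (2 * m + 3),
      volume.real (mid m q ∩ (if cell k ⊆ f '' mid m q then f ⁻¹' cell k else ∅)) =
      ∑ k ∈ Finset.range (2 * m + 3), wE q m k := by
    apply Finset.sum_congr rfl
    intro k _
    unfold wE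
    split_ifs <;> simp
  have h4 := rest_vol (m := m) h.q0
  linarith

theorem step_upper0 {B : Set ℝ} (hB : MeasurableSet B) {m : ℕ} {q : ℝ} (h : OK m q) :
    volume.real (cell m ∩ f ⁻¹' B) ≤ (1 + 3 * rr m q) * Q q (bb B) m + 4 * q := by
  classical
  have hsub : cell m ∩ f ⁻¹' B ⊆ rest m q ∪ ⋃ k ∈ Finset.range (2 * m + 3),
      (mid m q ∩ (if cell k ⊆ f '' mid m q then f ⁻¹' cell k ∩ f ⁻¹' B else ∅)) := by
    rintro x ⟨hx, hxB⟩
    by_cases h1 : x < m + 2 * q
    · left; left; exact ⟨hx.1, h1⟩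
    · by_cases h2 : m + 1 - 2 * q < x
      · left; right; exact ⟨h2, hx.2.le⟩
      · right
        rw [not_lt] at h1 h2
        obtain ⟨a, b, c, d⟩ := inner_sub h h1 h2
        simp only [mem_iUnion]
        refine ⟨_, a, c, ?_⟩
        rw [if_pos b]
        exact ⟨d, hxB⟩
  have h1 : volume.real (cell m ∩ f ⁻¹' B) ≤ volume.real (rest m q) +
      volume.real (⋃ k ∈ Finset.range (2 * m + 3),
      (mid m q ∩ (if cell k ⊆ f '' mid m q then f ⁻¹' cell k ∩ f ⁻¹' B else ∅))) := by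
    refine (measureReal_mono hsub ?_).trans (measureReal_union_le _ _)
    refine ((measure_union_le _ _).trans_lt (ENNReal.add_lt_top.2 ⟨?_, ?_⟩)).ne
    · exact (rest_fin m q).lt_top
    · exact (biU_fin m q _).lt_top
  have h2 := measureReal_biUnion_finset_le (μ := volume) (Finset.range (2 * m + 3))
    (fun k => mid m q ∩ (if cell k ⊆ f '' mid m q then f ⁻¹' cell k ∩ f ⁻¹' B else ∅))
  have h3 : ∑ k ∈ Finset.range (2 * m + 3),
      volume.real (mid m q ∩ (if cell k ⊆ f '' mid m q then f ⁻¹' cell k ∩ f ⁻¹' B else ∅)) ≤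
      ∑ k ∈ Finset.range (2 * m + 3), (1 + 3 * rr m q) * (wE q m k * bb B k) := by
    apply Finset.sum_le_sum
    intro k _
    unfold wE
    split_ifs with hf
    · have h1 := (cell_est h.q0 h.mq h.r hf hB).2
      rw [← inter_assoc]
      refine h1.trans ?_
      rw [mul_comm (volume.real (mid m q ∩ f ⁻¹' cell k))]
      exact le_rfl
    · simp
  have h4 := rest_vol (m := m) h.q0
  unfold Q
  rw [Finset.mul_sum]
  linarith

theorem step_upper {B : Set ℝ} (hB : Inv B) {m : ℕ} {q : ℝ} (h : OK m q) :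
    bb B m ≤ (1 + 3 * rr m q) * Q q (bb B) m + 4 * q := by
  rw [bb_eq hB h.m1]
  exact step_upper0 hB.1 h

theorem Q_le_P {q : ℝ} (hq : 0 < q) {u : ℕ → ℝ} (hu : ∀ k, 0 ≤ u k) (m : ℕ) : Q q u m ≤ P u m := by
  unfold Q P
  apply Finset.sum_le_sum
  intro k _
  exact mul_le_mul_of_nonneg_right (wE_le hq m k) (hu k)

theorem P_le_Q {m : ℕ} {q : ℝ} (h : OK m q) {u : ℕ → ℝ} {M : ℝ}
    (h1 : ∀ k, m / 2 ≤ k → u k ≤ M) (hM : 0 ≤ M) : P u m ≤ Q q u m + 4 * q * M := by
  have h2 : P u m - Q q u m ≤ (∑ k ∈ Finset.range (2 * m + 3), (w m k - wE q m k)) * M := by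
    unfold Q P
    rw [← Finset.sum_sub_distrib, Finset.sum_mul]
    apply Finset.sum_le_sum
    intro k _
    rw [← sub_mul]
    by_cases h0 : w m k = 0
    · have h3 := wE_le h.q0 m k
      have h4 := wE_nonneg q m k
      have h5 : wE q m k = 0 := by linarith
      rw [h0, h5]; simp
    · exact mul_le_mul_of_nonneg_left (h1 k (w_pos_range h0)) (by linarith [wE_le h.q0 m k])
  rw [Finset.sum_sub_distrib, w_sum] at h2
  have h3 := wE_sum h
  have h4 : (1 - ∑ k ∈ Finset.range (2 * m + 3), wE q m k) * M ≤ 4 * q * M :=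
    mul_le_mul_of_nonneg_right (by linarith) hM
  linarith

theorem P_mono {u v : ℕ → ℝ} {m : ℕ} (h : ∀ k, m / 2 ≤ k → u k ≤ v k) : P u m ≤ P v m := by
  unfold P
  apply Finset.sum_le_sum
  intro k _
  by_cases h0 : w m k = 0
  · rw [h0]; simp
  · exact mul_le_mul_of_nonneg_left (h k (w_pos_range h0)) (w_nonneg _ _)

theorem P_const (c : ℝ) (m : ℕ) : P (fun _ => c) m = c := by
  unfold P
  rw [← Finset.sum_mul, w_sum, one_mul]

theorem P_add (u v : ℕ → ℝ) (m : ℕ) : P (fun k => u k + v k) m = P u m + P v m := by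
  unfold P
  rw [← Finset.sum_add_distrib]
  apply Finset.sum_congr rfl
  intro k _; ring

theorem P_sub (u v : ℕ → ℝ) (m : ℕ) : P (fun k => u k - v k) m = P u m - P v m := by
  unfold P
  rw [← Finset.sum_sub_distrib]
  apply Finset.sum_congr rfl
  intro k _; ring

theorem P_smul (c : ℝ) (u : ℕ → ℝ) (m : ℕ) : P (fun k => c * u k) m = c * P u m := by
  unfold P
  rw [Finset.mul_sum]
  apply Finset.sum_congr rfl
  intro k _; ring

theorem up_bound {B : Set ℝ} (hB : MeasurableSet B) {m : ℕ} {q : ℝ} (h : OK m q) :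
    volume.real (cell m ∩ f ⁻¹' B) ≤ P (bb B) m + (3 * rr m q + 4 * q) := by
  have h2 := step_upper0 hB h
  have h3 := Q_le_P h.q0 (bb_nonneg B) m
  have h5 : Q q (bb B) m ≤ 1 := by
    have h6 : P (bb B) m ≤ P (fun _ => 1) m := P_mono fun k _ => bb_le_one B k
    rw [P_const] at h6
    linarith
  have h6 := rr_nonneg m q
  have h7 : 3 * rr m q * Q q (bb B) m ≤ 3 * rr m q * 1 := mul_le_mul_of_nonneg_left h5 (by linarith)
  nlinarith

/-- approximate harmonicity, additive form -/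
theorem approx_harm {B : Set ℝ} (hB : Inv B) {m : ℕ} {q : ℝ} (h : OK m q) :
    |bb B m - P (bb B) m| ≤ 3 * rr m q + 4 * q := by
  have h1 := step_lower hB h
  have h2 := step_upper hB h
  have h3 := Q_le_P h.q0 (bb_nonneg B) m
  have h4 := P_le_Q h (u := bb B) (M := 1) (fun k _ => bb_le_one B k) (by norm_num)
  have h5 : Q q (bb B) m ≤ 1 := by
    have h6 : P (bb B) m ≤ P (fun _ => 1) m := P_mono fun k _ => bb_le_one B k
    rw [P_const] at h6
    linarith
  have h6 := rr_nonneg m q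
  have h7 : 3 * rr m q * Q q (bb B) m ≤ 3 * rr m q * 1 := mul_le_mul_of_nonneg_left h5 (by linarith)
  rw [abs_le]
  constructor
  · nlinarith
  · nlinarith

end Pool.Agent.W40.Ch
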