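import Pool.Agent.W40.Ch.A3

/-!
Choice of the parameter and Lyapunov functions for the transition operator.
-/

set_option autoImplicit false

namespace Pool.Agent.W40.Ch

open Real Set MeasureTheory Filter Topology
open Pool.Agent.H934R2.Ch (f df hasDerivAt_f continuous_f continuous_df)

/-- the parameter `m^(-1/3)` -/
noncomputable def qq (m : ℕ) : ℝ := (m : ℝ) ^ (-(1 / 3) : ℝ)

/-- the decaying Lyapunov function `m^(-1/4)` -/
noncomputable def g (m : ℕ) : ℝ := (m : ℝ) ^ (-(1 / 4) : ℝ)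

theorem g_nonneg (m : ℕ) : 0 ≤ g m := by unfold g; positivity

theorem qq_nonneg (m : ℕ) : 0 ≤ qq m := by unfold qq; positivity

theorem g_anti {a b : ℕ} (ha : 1 ≤ a) (h : a ≤ b) : g b ≤ g a := by
  unfold g
  apply Real.rpow_le_rpow_of_nonpos
  · exact_mod_cast ha
  · exact_mod_cast h
  · norm_num

theorem g_pos {m : ℕ} (hm : 1 ≤ m) : 0 < g m := by
  unfold g
  have : (0 : ℝ) < m := by exact_mod_cast hm
  positivity

theorem qq_le_g {m : ℕ} (hm : 1 ≤ m) : qq m ≤ g m := by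
  unfold qq g
  apply Real.rpow_le_rpow_of_exponent_le
  · exact_mod_cast hm
  · norm_num

theorem tendsto_g : Tendsto g atTop (𝓝 0) := by
  have h := (tendsto_rpow_neg_atTop (y := (1 / 4 : ℝ)) (by norm_num)).comp
    tendsto_natCast_atTop_atTop
  exact h

theorem ok {m : ℕ} (hm : 13824 ≤ m) : OK m (qq m) ∧ rr m (qq m) ≤ 6 * qq m := by
  have hm' : (13824 : ℝ) ≤ m := by exact_mod_cast hm
  set c : ℝ := (m : ℝ) ^ ((1 / 3 : ℝ)) with hc
  have hm0 : (0 : ℝ) ≤ m := by positivity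
  have hc3 : c ^ 3 = m := by
    rw [hc, ← Real.rpow_natCast, ← Real.rpow_mul hm0]
    norm_num
  have hc0 : 0 ≤ c := by positivity
  have hc24 : 24 ≤ c := by
    by_contra hcon
    rw [not_le] at hcon
    have : c ^ 3 < 24 ^ 3 := pow_lt_pow_left₀ hcon hc0 (by norm_num)
    rw [hc3] at this
    norm_num at this
    linarith
  have hcpos : 0 < c := by linarith
  have hq : qq m = c⁻¹ := by
    unfold qq
    rw [Real.rpow_neg hm0]
  have hmq : (m : ℝ) * qq m = c ^ 2 := by
    rw [hq, ← hc3]; field_simp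
  have hr : rr m (qq m) = (5 * c ^ 3 + 11) / c ^ 4 := by
    unfold rr
    rw [hmq, ← hc3]
    ring
  have hr6 : rr m (qq m) ≤ 6 * qq m := by
    rw [hr, hq, div_le_iff₀ (by positivity)]
    have : 6 * c⁻¹ * c ^ 4 = 6 * c ^ 3 := by field_simp
    rw [this]
    nlinarith [pow_le_pow_left₀ (by norm_num) hc24 3]
  refine ⟨⟨?_, ?_, ?_, ?_⟩, hr6⟩
  · rw [hq]; positivity
  · rw [hmq]; nlinarith
  · rw [hmq, hq]
    have : c ^ 2 * c⁻¹ = c := by field_simp
    rw [this]; linarith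
  · have h1 : rr m (qq m) ≤ 1 / 4 := by
      refine hr6.trans ?_
      rw [hq, inv_eq_one_div, mul_one_div, div_le_div_iff₀ hcpos (by norm_num)]
      linarith
    exact h1

theorem harm {B : Set ℝ} (hB : Inv B) {m : ℕ} (hm : 13824 ≤ m) :
    |bb B m - P (bb B) m| ≤ 22 * g m := by
  obtain ⟨h1, h2⟩ := ok hm
  have h3 := approx_harm hB h1
  have h4 := qq_le_g (m := m) (by omega)
  linarith

/-- lower bound for the transition operator by an integral -/
theorem int_le_P {m : ℕ} {u : ℕ → ℝ} {G : ℝ → ℝ} (hG : Continuous G)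
    (h : ∀ x ∈ cell m, G x ≤ u ⌊f x⌋₊) : ∫ x in cell m, G x ≤ P u m := by
  have hint : ∀ A : Set ℝ, IntegrableOn G (cell m ∩ A) := by
    intro A
    exact (hG.continuousOn.integrableOn_Icc (a := (m : ℝ)) (b := m + 1)).mono_set
      (inter_subset_left.trans (cell_sub m))
  have hcov : cell m = ⋃ k ∈ Finset.range (2 * m + 3), (cell m ∩ f ⁻¹' cell k) := by
    ext x
    simp only [mem_inter_iff, mem_iUnion, mem_preimage, exists_prop]
    constructor
    · intro h1
      have hx0 : (0 : ℝ) ≤ x := le_trans (by positivity) h1.1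
      exact ⟨_, floor_range h1, h1, mem_cell_floor (le_trans (by linarith) (f_lb hx0))⟩
    · rintro ⟨k, _, h1, _⟩
      exact h1
  rw [hcov, integral_biUnion_finset]
  · unfold P
    apply Finset.sum_le_sum
    intro k _
    have h1 : ∫ x in cell m ∩ f ⁻¹' cell k, G x ≤ ∫ x in cell m ∩ f ⁻¹' cell k, u k := by
      apply setIntegral_mono_on (hint _) (integrableOn_const (inter_fin _ _))
        ((cell_meas m).inter (pre_meas (cell_meas k)))
      intro x hx
      have h2 := h x hx.1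
      have h3 : ⌊f x⌋₊ = k := by
        have h4 : f x ∈ cell k := hx.2
        exact (Nat.floor_eq_iff (le_trans (by positivity) h4.1)).2 ⟨h4.1, h4.2⟩
      rwa [h3] at h2
    rw [setIntegral_const] at h1
    exact h1
  · intro k _
    exact (cell_meas m).inter (pre_meas (cell_meas k))
  · intro i _ j _ hij
    rw [Function.onFun, Set.disjoint_left]
    intro x hx hy
    exact Set.disjoint_left.1 (cells_disj hij) hx.2 hy.2
  · intro k _
    exact hint _

theorem P_le_int {m : ℕ} {u : ℕ → ℝ} {G : ℝ → ℝ} (hG : Continuous G)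
    (h : ∀ x ∈ cell m, u ⌊f x⌋₊ ≤ G x) : P u m ≤ ∫ x in cell m, G x := by
  have h1 := int_le_P (m := m) (u := fun k => (-1) * u k) (G := fun x => -G x) hG.neg
    (fun x hx => by have := h x hx; linarith)
  rw [P_smul, integral_neg] at h1
  linarith

theorem int_cos (m : ℕ) (K a b : ℝ) :
    ∫ x in cell m, K * (1 + a * cos (π * x) + b * cos (π * x) ^ 2) = K * (1 + b / 2) := by
  unfold cell
  rw [integral_Ico_eq_integral_Ioc, ← intervalIntegral.integral_of_le (by linarith)]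
  have hF : ∀ x ∈ uIcc (m : ℝ) (m + 1), HasDerivAt
      (fun x => K * (x + a * (sin (π * x) / π) + b * (x / 2 + sin (2 * (π * x)) / (4 * π))))
      (K * (1 + a * cos (π * x) + b * cos (π * x) ^ 2)) x := by
    intro x _
    have hp : π ≠ 0 := Real.pi_ne_zero
    have h1 : HasDerivAt (fun x : ℝ => sin (π * x)) (cos (π * x) * (π * 1)) x :=
      (Real.hasDerivAt_sin (π * x)).comp x ((hasDerivAt_id x).const_mul π)
    have h0 : HasDerivAt (fun x : ℝ => 2 * (π * x)) (2 * (π * 1)) x :=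
      ((hasDerivAt_id x).const_mul π).const_mul 2
    have h2 : HasDerivAt (fun x : ℝ => sin (2 * (π * x))) (cos (2 * (π * x)) * (2 * (π * 1))) x :=
      h0.sin
    have h3 := (((hasDerivAt_id x).add ((h1.div_const π).const_mul a)).add
      ((((hasDerivAt_id x).div_const 2).add (h2.div_const (4 * π))).const_mul b)).const_mul K
    refine h3.congr_deriv ?_
    rw [Real.cos_two_mul]
    field_simp
    ring
  rw [intervalIntegral.integral_eq_sub_of_hasDerivAt hF]
  · have s1 : sin (π * m) = 0 := by rw [mul_comm]; exact Real.sin_nat_mul_pi m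
    have s2 : sin (π * (m + 1)) = 0 := by
      have := Real.sin_nat_mul_pi (m + 1)
      push_cast at this
      rw [mul_comm]; exact this
    rw [Real.sin_two_mul, Real.sin_two_mul, s1, s2]
    ring
  · apply Continuous.intervalIntegrable
    fun_prop

/-- bound of the map on a cell -/
theorem f_le_cell {m : ℕ} {x : ℝ} (hx : x ∈ cell m) :
    f x ≤ (m + 2) * (1 + -(cos (π * x)) / 2) := by
  rw [f_eq]
  have h1 := Real.neg_one_le_cos (π * x)
  have h2 := Real.cos_le_one (π * x)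
  have h3 : x * (1 + -(cos (π * x)) / 2) ≤ (m + 1) * (1 + -(cos (π * x)) / 2) :=
    mul_le_mul_of_nonneg_right hx.2.le (by linarith)
  linarith

theorem poly_a {s : ℝ} (hs : 0 < s) (h4 : s ^ 4 ≤ 3 / 2) :
    1 - (s ^ 4 - 1) / 4 + (s ^ 4 - 1) ^ 2 / 10 ≤ s⁻¹ := by
  have hs1 : s ≤ 1.11 := by
    by_contra hcon
    rw [not_le] at hcon
    have : (1.11 : ℝ) ^ 4 < s ^ 4 := pow_lt_pow_left₀ hcon (by norm_num) (by norm_num)
    norm_num at this
    linarith
  rw [inv_eq_one_div, le_div_iff₀ hs]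
  have key : 0 ≤ (1 - s) ^ 2 *
      (20 + 13 * s + 6 * s ^ 2 - s ^ 3 - 8 * s ^ 4 - 6 * s ^ 5 - 4 * s ^ 6 - 2 * s ^ 7) := by
    apply mul_nonneg (sq_nonneg _)
    have e3 : s ^ 3 ≤ 1.11 * s ^ 2 := by nlinarith [sq_nonneg s]
    have e5 : s ^ 5 ≤ 3 / 2 * s := by
      have : s ^ 5 = s ^ 4 * s := by ring
      rw [this]; exact mul_le_mul_of_nonneg_right h4 hs.le
    have e6 : s ^ 6 ≤ 3 / 2 * s ^ 2 := by
      have : s ^ 6 = s ^ 4 * s ^ 2 := by ring
      rw [this]; exact mul_le_mul_of_nonneg_right h4 (by positivity)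
    have e7 : s ^ 7 ≤ 3 / 2 * s ^ 3 := by
      have : s ^ 7 = s ^ 4 * s ^ 3 := by ring
      rw [this]; exact mul_le_mul_of_nonneg_right h4 (by positivity)
    have e2 : s ^ 2 ≤ 1.11 * s := by nlinarith
    nlinarith
  nlinarith

theorem poly_b {s : ℝ} (h2 : s ^ 2 ≤ 3 / 2) :
    s ≤ 1 + (s ^ 2 - 1) / 2 - (s ^ 2 - 1) ^ 2 / 10 := by
  have hs1 : s ≤ 1.23 := by
    by_contra hcon
    rw [not_le] at hcon
    have : (1.23 : ℝ) ^ 2 < s ^ 2 := pow_lt_pow_left₀ hcon (by norm_num) (by norm_num)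
    norm_num at this
    linarith
  have key : 0 ≤ (1 - s) ^ 2 * (4 - 2 * s - s ^ 2) := by
    apply mul_nonneg (sq_nonneg _)
    linarith
  nlinarith


theorem y_a {y : ℝ} (hy : 0 < y) (h : y ≤ 3 / 2) :
    1 - (y - 1) / 4 + (y - 1) ^ 2 / 10 ≤ y ^ (-(1 / 4) : ℝ) := by
  have hs : 0 < y ^ (1 / 4 : ℝ) := by positivity
  have h4 : (y ^ (1 / 4 : ℝ)) ^ 4 = y := by
    rw [← Real.rpow_natCast, ← Real.rpow_mul hy.le]
    norm_num
  have h5 := poly_a hs (by rw [h4]; exact h)
  rw [h4] at h5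
  rwa [Real.rpow_neg hy.le]

theorem y_b {y : ℝ} (hy : 0 ≤ y) (h : y ≤ 3 / 2) :
    √y ≤ 1 + (y - 1) / 2 - (y - 1) ^ 2 / 10 := by
  have h4 : (√y) ^ 2 = y := Real.sq_sqrt hy
  have h5 := poly_b (s := √y) (by rw [h4]; exact h)
  rwa [h4] at h5

/-- the decaying Lyapunov function -/
theorem lyap_a {m : ℕ} (hm : 400 ≤ m) : (1 + 1 / 100) * g m ≤ P g m := by
  have hm' : (400 : ℝ) ≤ m := by exact_mod_cast hm
  have h1 := int_le_P (m := m) (u := g)
    (G := fun x => ((m : ℝ) + 2) ^ (-(1 / 4) : ℝ) * (1 + 1 / 8 * cos (π * x) +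
      1 / 40 * cos (π * x) ^ 2)) (by fun_prop) (by
      intro x hx
      have c1 := Real.neg_one_le_cos (π * x)
      have c2 := Real.cos_le_one (π * x)
      have hx0 : (0 : ℝ) < x := lt_of_lt_of_le (by linarith) hx.1
      have hfx : 0 < f x := f_pos hx0
      have hle := f_le_cell hx
      set y := 1 + -(cos (π * x)) / 2 with hy
      have hy0 : 0 < y := by rw [hy]; linarith
      have h2 := y_a hy0 (by rw [hy]; linarith)
      have h3 : (f x) ^ (-(1 / 4) : ℝ) ≤ g ⌊f x⌋₊ := by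
        unfold g
        apply Real.rpow_le_rpow_of_nonpos
        · have h5 := f_lb hx0.le
          have : 1 ≤ ⌊f x⌋₊ := by
            rw [Nat.one_le_floor_iff]
            linarith [hx.1]
          exact_mod_cast this
        · exact Nat.floor_le hfx.le
        · norm_num
      refine le_trans ?_ h3
      have h4 : ((m : ℝ) + 2) ^ (-(1 / 4) : ℝ) * y ^ (-(1 / 4) : ℝ) ≤ (f x) ^ (-(1 / 4) : ℝ) := by
        rw [← Real.mul_rpow (by linarith) hy0.le]
        apply Real.rpow_le_rpow_of_nonpos hfx hle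
        norm_num
      refine le_trans ?_ h4
      apply mul_le_mul_of_nonneg_left _ (by positivity)
      refine le_trans (le_of_eq ?_) h2
      rw [hy]; ring)
  rw [int_cos] at h1
  refine le_trans ?_ h1
  -- (m+2)^(-1/4) ≥ (1 - 1/(2m)) m^(-1/4)
  have h2 : ((m : ℝ) + 2) ^ (-(1 / 4) : ℝ) = g m * (1 + 2 / m) ^ (-(1 / 4) : ℝ) := by
    unfold g
    rw [← Real.mul_rpow (by linarith) (by positivity)]
    congr 1
    field_simp
  have h3 := y_a (y := 1 + 2 / (m : ℝ)) (by positivity) (by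
    have : 2 / (m : ℝ) ≤ 2 / 400 := div_le_div_of_nonneg_left (by norm_num) (by norm_num) hm'
    linarith)
  have h4 : (1 : ℝ) - 1 / 800 ≤ (1 + 2 / (m : ℝ)) ^ (-(1 / 4) : ℝ) := by
    refine le_trans ?_ h3
    have : 2 / (m : ℝ) ≤ 2 / 400 := div_le_div_of_nonneg_left (by norm_num) (by norm_num) hm'
    nlinarith [sq_nonneg (1 + 2 / (m : ℝ) - 1)]
  rw [h2]
  have hg := g_nonneg m
  have h5 : g m * (1 - 1 / 800) ≤ g m * (1 + 2 / (m : ℝ)) ^ (-(1 / 4) : ℝ) :=
    mul_le_mul_of_nonneg_left h4 hg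
  nlinarith

/-- the growing Lyapunov function -/
theorem lyap_b {m : ℕ} (hm : 400 ≤ m) : P (fun k => √(k : ℝ)) m < √(m : ℝ) := by
  have hm' : (400 : ℝ) ≤ m := by exact_mod_cast hm
  have h1 := P_le_int (m := m) (u := fun k => √(k : ℝ))
    (G := fun x => √((m : ℝ) + 2) * (1 + (-1 / 4) * cos (π * x) +
      (-1 / 40) * cos (π * x) ^ 2)) (by fun_prop) (by
      intro x hx
      have c1 := Real.neg_one_le_cos (π * x)
      have c2 := Real.cos_le_one (π * x)
      have hx0 : (0 : ℝ) < x := lt_of_lt_of_le (by linarith) hx.1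
      have hfx : 0 < f x := f_pos hx0
      have hle := f_le_cell hx
      set y := 1 + -(cos (π * x)) / 2 with hy
      have hy0 : 0 < y := by rw [hy]; linarith
      have h2 := y_b hy0.le (by rw [hy]; linarith)
      have h3 : √((⌊f x⌋₊ : ℕ) : ℝ) ≤ √(f x) := Real.sqrt_le_sqrt (Nat.floor_le hfx.le)
      refine h3.trans ((Real.sqrt_le_sqrt hle).trans ?_)
      rw [Real.sqrt_mul (by linarith)]
      apply mul_le_mul_of_nonneg_left _ (by positivity)
      refine h2.trans (le_of_eq ?_)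
      rw [hy]; ring)
  rw [int_cos] at h1
  refine lt_of_le_of_lt h1 ?_
  have h2 : √((m : ℝ) + 2) = √(m : ℝ) * √(1 + 2 / m) := by
    rw [← Real.sqrt_mul (by linarith)]
    congr 1
    field_simp
  have h3 := y_b (y := 1 + 2 / (m : ℝ)) (by positivity) (by
    have : 2 / (m : ℝ) ≤ 2 / 400 := div_le_div_of_nonneg_left (by norm_num) (by norm_num) hm'
    linarith)
  have h4 : √(1 + 2 / (m : ℝ)) ≤ 1 + 1 / 400 := by
    refine h3.trans ?_
    have : 2 / (m : ℝ) ≤ 2 / 400 := div_le_div_of_nonneg_left (by norm_num) (by norm_num) hm'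
    nlinarith [sq_nonneg (1 + 2 / (m : ℝ) - 1)]
  rw [h2]
  have hs : 0 < √(m : ℝ) := Real.sqrt_pos.2 (by linarith)
  have h5 : √(m : ℝ) * √(1 + 2 / (m : ℝ)) ≤ √(m : ℝ) * (1 + 1 / 400) :=
    mul_le_mul_of_nonneg_left h4 hs.le
  nlinarith

end Pool.Agent.W40.Ch
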