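import Pool.Agent.W40.Ch.A4

/-!
Maximum principle, minorisation and convergence.
-/

set_option autoImplicit false

namespace Pool.Agent.W40.Ch

open Real Set MeasureTheory Filter Topology
open Pool.Agent.H934R2.Ch (f df hasDerivAt_f continuous_f continuous_df)

theorem max_principle {u : ℕ → ℝ} {M C S : ℝ} {L : ℕ} (hL : 800 ≤ L) (hC : 0 ≤ C)
    (hM : ∀ k, u k ≤ M) (hu : ∀ m, L ≤ m → u m ≤ P u m + C * g m)
    (hS : ∀ k, L / 2 ≤ k → k < L → u k ≤ S) :
    ∀ m, L / 2 ≤ m → u m ≤ S + 100 * C * g (L / 2) := by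
  intro m1 hm1
  by_contra hcon
  rw [not_le] at hcon
  have hL2 : 400 ≤ L / 2 := by omega
  set G := g (L / 2) with hG
  set W : ℕ → ℝ := fun k => 100 * C * (G - g k) with hW
  have hW0 : ∀ k, L / 2 ≤ k → 0 ≤ W k := by
    intro k hk
    have := g_anti (by omega : 1 ≤ L / 2) hk
    exact mul_nonneg (by linarith) (by linarith)
  have hW1 : ∀ k, W k ≤ 100 * C * G := by
    intro k
    have := g_nonneg k
    simp only [hW]
    exact mul_le_mul_of_nonneg_left (by linarith) (by linarith)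
  set δ := u m1 - W m1 - S with hδ
  have hδ0 : 0 < δ := by have := hW1 m1; linarith
  set ε := δ / (2 * (√(m1 : ℝ) + 1)) with hε
  have hs1 : 0 ≤ √(m1 : ℝ) := Real.sqrt_nonneg _
  have hε0 : 0 < ε := by positivity
  have hε1 : ε * √(m1 : ℝ) < δ := by
    have h1 : ε * (2 * (√(m1 : ℝ) + 1)) = δ := by rw [hε]; field_simp
    nlinarith
  set v : ℕ → ℝ := fun k => u k - W k - ε * √(k : ℝ) with hv
  have hvm1 : S < v m1 := by simp only [hv]; linarith
  -- large arguments
  obtain ⟨N, hN1, hN2⟩ : ∃ N : ℕ, m1 ≤ N ∧ ∀ k, N ≤ k → M - ε * √(k : ℝ) ≤ S := by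
    refine ⟨max m1 ⌈((|M - S|) / ε) ^ 2⌉₊, le_max_left _ _, ?_⟩
    intro k hk
    have h1 : ((|M - S|) / ε) ^ 2 ≤ k := by
      refine (Nat.le_ceil _).trans ?_
      exact_mod_cast (le_max_right _ _).trans hk
    have h2 : |M - S| / ε ≤ √(k : ℝ) := Real.le_sqrt_of_sq_le h1
    rw [div_le_iff₀ hε0] at h2
    have h3 := le_abs_self (M - S)
    linarith
  obtain ⟨m0, hm0, hmax⟩ := Finset.exists_max_image (Finset.Icc (L / 2) N) v
    ⟨m1, Finset.mem_Icc.2 ⟨hm1, hN1⟩⟩
  have h01 : v m1 ≤ v m0 := hmax m1 (Finset.mem_Icc.2 ⟨hm1, hN1⟩)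
  have hall : ∀ k, L / 2 ≤ k → v k ≤ v m0 := by
    intro k hk
    rcases le_total k N with h | h
    · exact hmax k (Finset.mem_Icc.2 ⟨hk, h⟩)
    · have h1 := hN2 k h
      have h2 := hM k
      have h3 := hW0 k hk
      simp only [hv]
      simp only [hv] at h01 hvm1
      linarith
  rw [Finset.mem_Icc] at hm0
  have hm0L : L ≤ m0 := by
    by_contra hlt
    rw [not_le] at hlt
    have h1 := hS m0 hm0.1 hlt
    have h2 := hW0 m0 hm0.1
    have h3 : v m0 ≤ u m0 := by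
      simp only [hv]
      have : 0 ≤ ε * √(m0 : ℝ) := by positivity
      linarith
    linarith
  have hPv : P v m0 ≤ v m0 := by
    have h1 : P v m0 ≤ P (fun _ => v m0) m0 := by
      apply P_mono
      intro k hk
      exact hall k (by omega)
    rwa [P_const] at h1
  have hPv2 : P v m0 = P u m0 - P W m0 - ε * P (fun k => √(k : ℝ)) m0 := by
    have e1 := P_sub (fun k => u k - W k) (fun k => ε * √(k : ℝ)) m0
    have e2 := P_sub u W m0
    have e3 := P_smul ε (fun k => √(k : ℝ)) m0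
    simp only [hv]
    rw [e1, e2, e3]
  have hPW : P W m0 = 100 * C * (G - P g m0) := by
    have e1 := P_smul (100 * C) (fun k => G - g k) m0
    have e2 := P_sub (fun _ => G) g m0
    simp only [hW]
    rw [e1, e2, P_const]
  have hla := lyap_a (m := m0) (by omega)
  have hlb := lyap_b (m := m0) (by omega)
  have hu0 := hu m0 hm0L
  have h1 : P W m0 ≤ W m0 - C * g m0 := by
    rw [hPW]
    simp only [hW]
    have : 100 * C * (G - P g m0) ≤ 100 * C * (G - (1 + 1 / 100) * g m0) :=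
      mul_le_mul_of_nonneg_left (by linarith) (by linarith)
    refine this.trans (le_of_eq ?_)
    ring
  have h2 : ε * P (fun k => √(k : ℝ)) m0 < ε * √(m0 : ℝ) := mul_lt_mul_of_pos_left hlb hε0
  have h3 : v m0 = u m0 - W m0 - ε * √(m0 : ℝ) := rfl
  linarith

/-- Lipschitz bound on a cell -/
theorem lip_cell (m : ℕ) : LipschitzOnWith (2 * m + 5) f (Icc (m : ℝ) (m + 1)) := by
  apply Convex.lipschitzOnWith_of_nnnorm_hasDerivWithin_le (convex_Icc _ _)
    (fun x _ => (hasDerivAt_f x).hasDerivWithinAt)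
  intro x hx
  have hx0 : (0 : ℝ) ≤ x := le_trans (by positivity) hx.1
  have h1 := df_abs_le hx0
  rw [← NNReal.coe_le_coe, coe_nnnorm, Real.norm_eq_abs]
  push_cast
  linarith [hx.2]

theorem pre_lb {m : ℕ} {A : Set ℝ} (hA : A ⊆ f '' Icc (m : ℝ) (m + 1)) :
    volume.real A ≤ (2 * m + 5) * volume.real (cell m ∩ f ⁻¹' A) := by
  have h1 : A \ {f (m + 1)} ⊆ f '' (cell m ∩ f ⁻¹' A) := by
    rintro y ⟨hy, hy2⟩
    obtain ⟨x, hx, rfl⟩ := hA hy
    refine ⟨x, ⟨⟨hx.1, lt_of_le_of_ne hx.2 ?_⟩, hy⟩, rfl⟩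
    rintro rfl
    exact hy2 rfl
  have h2 : volume A ≤ volume (f '' (cell m ∩ f ⁻¹' A)) := by
    have h3 : volume (A \ {f (m + 1)}) = volume A := measure_sdiff_null (Real.volume_singleton)
    rw [← h3]
    exact measure_mono h1
  have h4 : volume (f '' (cell m ∩ f ⁻¹' A)) ≤
      ENNReal.ofReal (2 * m + 5) * volume (cell m ∩ f ⁻¹' A) := by
    have h5 := ((lip_cell m).mono (inter_subset_left.trans (cell_sub m) :
      cell m ∩ f ⁻¹' A ⊆ _)).hausdorffMeasure_image_le (d := 1) (by norm_num)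
    rw [hausdorffMeasure_real, ENNReal.rpow_one] at h5
    refine h5.trans (le_of_eq ?_)
    congr 1
    rw [ENNReal.ofReal]
    congr 1
    rw [← NNReal.coe_inj, Real.coe_toNNReal _ (by positivity)]
    push_cast
    rfl
  have h6 := ENNReal.toReal_mono (ENNReal.mul_ne_top ENNReal.ofReal_ne_top (inter_fin _ m))
    (h2.trans h4)
  rwa [ENNReal.toReal_mul, ENNReal.toReal_ofReal (by positivity)] at h6

theorem cover {m k : ℕ} (h1 : min (f m) (f (m + 1)) ≤ k)
    (h2 : (k : ℝ) + 1 ≤ max (f m) (f (m + 1))) : cell k ⊆ f '' Icc (m : ℝ) (m + 1) := by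
  have hivt := intermediate_value_uIcc (a := (m : ℝ)) (b := m + 1)
    (continuous_f.continuousOn (s := uIcc (m : ℝ) (m + 1)))
  rw [uIcc_of_le (by linarith : (m : ℝ) ≤ m + 1)] at hivt
  intro y hy
  apply hivt
  rw [uIcc]
  exact ⟨h1.trans hy.1, hy.2.le.trans h2⟩

theorem f_int (m : ℕ) : f m = m + 1 / 4 - (2 * m + 1) / 4 * (-1) ^ m := by
  have h := Real.cos_nat_mul_pi m
  have : f m = m + 1 / 4 - (2 * m + 1) / 4 * cos (π * m) := by unfold f; ring
  rw [this, mul_comm π, h]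

theorem cover' {m k : ℕ} (h1 : ((m : ℝ) + 1) / 2 ≤ k) (h2 : (k : ℝ) + 1 ≤ (3 * m + 1) / 2) :
    cell k ⊆ f '' Icc (m : ℝ) (m + 1) := by
  have e1 := f_int m
  have e2 := f_int (m + 1)
  push_cast at e2
  apply cover
  · rcases neg_one_pow_eq_or ℝ m with h | h <;> rw [h] at e1 <;> rw [pow_succ, h] at e2
    · exact (min_le_left _ _).trans (by linarith)
    · exact (min_le_right _ _).trans (by linarith)
  · rcases neg_one_pow_eq_or ℝ m with h | h <;> rw [h] at e1 <;> rw [pow_succ, h] at e2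
    · exact le_trans (by linarith) (le_max_right _ _)
    · exact le_trans (by linarith) (le_max_left _ _)

theorem w_lb {m k : ℕ} (h1 : ((m : ℝ) + 1) / 2 ≤ k) (h2 : (k : ℝ) + 1 ≤ (3 * m + 1) / 2) :
    1 / (2 * m + 5) ≤ w m k := by
  have h3 := pre_lb (cover' h1 h2)
  rw [cell_vol] at h3
  rw [div_le_iff₀ (by positivity)]
  unfold w
  linarith

end Pool.Agent.W40.Ch
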