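import Pool.Agent.W40.Ch.A5

/-!
Convergence of approximately harmonic bounded sequences.
-/

set_option autoImplicit false

namespace Pool.Agent.W40.Ch

open Real Set MeasureTheory Filter Topology
open Pool.Agent.H934R2.Ch (f df hasDerivAt_f continuous_f continuous_df)

/-- a sum over part of the range is a lower bound for the operator -/
theorem P_ge_sum {v : ℕ → ℝ} {m : ℕ} {J : Finset ℕ} {A : ℝ}
    (hv : ∀ k, m / 2 ≤ k → 0 ≤ v k) (hJ : ∀ k ∈ J, 1 / A ≤ w m k ∧ m / 2 ≤ k ∧ k < 2 * m + 3) :
    (∑ k ∈ J, v k) / A ≤ P v m := by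
  have h1 : (∑ k ∈ J, v k) / A ≤ ∑ k ∈ J, w m k * v k := by
    rw [Finset.sum_div]
    apply Finset.sum_le_sum
    intro k hk
    obtain ⟨a, b, _⟩ := hJ k hk
    calc v k / A = 1 / A * v k := by ring
      _ ≤ _ := mul_le_mul_of_nonneg_right a (hv k b)
  refine h1.trans ?_
  unfold P
  apply Finset.sum_le_sum_of_subset_of_nonneg
  · intro k hk
    exact Finset.mem_range.2 (hJ k hk).2.2
  · intro k _ _
    by_cases h0 : w m k = 0
    · rw [h0]; simp
    · exact mul_nonneg (w_nonneg _ _) (hv k (w_pos_range h0))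

/-- first window -/
def J1 (L : ℕ) : Finset ℕ := Finset.Ico (3 * L / 4 + 1) (9 * L / 10)

/-- second window -/
def J2 (L : ℕ) : Finset ℕ := Finset.Ico (21 * L / 20 + 1) (6 * L / 5)

theorem J1_card {L : ℕ} (hL : 1000 ≤ L) : (L : ℝ) / 8 ≤ (J1 L).card := by
  unfold J1
  rw [Nat.card_Ico]
  have : L ≤ 8 * (9 * L / 10 - (3 * L / 4 + 1)) := by omega
  have h : (L : ℝ) ≤ ((8 * (9 * L / 10 - (3 * L / 4 + 1)) : ℕ) : ℝ) := by exact_mod_cast this
  rw [Nat.cast_mul] at h
  push_cast at h ⊢
  linarith

theorem J2_card {L : ℕ} (hL : 1000 ≤ L) : (L : ℝ) / 8 ≤ (J2 L).card := by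
  unfold J2
  rw [Nat.card_Ico]
  have : L ≤ 8 * (6 * L / 5 - (21 * L / 20 + 1)) := by omega
  have h : (L : ℝ) ≤ ((8 * (6 * L / 5 - (21 * L / 20 + 1)) : ℕ) : ℝ) := by exact_mod_cast this
  rw [Nat.cast_mul] at h
  push_cast at h ⊢
  linarith

theorem w_lb' {m k : ℕ} (h1 : m + 1 ≤ 2 * k) (h2 : 2 * k + 1 ≤ 3 * m) {A : ℝ}
    (hA : 2 * (m : ℝ) + 5 ≤ A) : 1 / A ≤ w m k := by
  have h1' : (m : ℝ) + 1 ≤ 2 * k := by exact_mod_cast h1
  have h2' : 2 * (k : ℝ) + 1 ≤ 3 * m := by exact_mod_cast h2
  refine le_trans ?_ (w_lb (by linarith) (by linarith))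
  apply one_div_le_one_div_of_le (by positivity) hA

theorem contraction {v : ℕ → ℝ} {C M : ℝ} {L : ℕ} (hL : 1000 ≤ L) (hC : 0 ≤ C)
    (hM : ∀ k, M ≤ v k) (hv0 : ∀ k, L / 2 ≤ k → 0 ≤ v k)
    (hv : ∀ m, L ≤ m → P v m - C * g m ≤ v m) :
    ∀ m, L ≤ m → (∑ k ∈ J1 L, v k) / (3 * L) / 40 - 102 * (C * g L) ≤ v m := by
  have hL' : (1000 : ℝ) ≤ L := by exact_mod_cast hL
  set a := (∑ k ∈ J1 L, v k) / (3 * L) with ha
  have ha0 : 0 ≤ a := by
    apply div_nonneg _ (by positivity)
    apply Finset.sum_nonneg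
    intro k hk
    unfold J1 at hk
    rw [Finset.mem_Ico] at hk
    exact hv0 k (by omega)
  have hCg : 0 ≤ C * g L := mul_nonneg hC (g_nonneg L)
  have hg : ∀ z, L ≤ z → C * g z ≤ C * g L := fun z hz =>
    mul_le_mul_of_nonneg_left (g_anti (by omega) hz) hC
  -- first step
  have s1 : ∀ z, L ≤ z → 5 * z ≤ 7 * L → a - C * g L ≤ v z := by
    intro z hz hz2
    have hz2' : 5 * (z : ℝ) ≤ 7 * L := by exact_mod_cast hz2
    have h1 := P_ge_sum (v := v) (m := z) (J := J1 L) (A := 3 * L)
      (fun k hk => hv0 k (by omega)) (by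
        intro k hk
        unfold J1 at hk
        rw [Finset.mem_Ico] at hk
        refine ⟨w_lb' (by omega) (by omega) (by linarith), by omega, by omega⟩)
    have h2 := hv z hz
    have h3 := hg z hz
    linarith
  have s2 : ∀ z, L ≤ z → z < 2 * L → a / 40 - 2 * (C * g L) ≤ v z := by
    intro z hz hz2
    by_cases hc : 5 * z ≤ 7 * L
    · have := s1 z hz hc
      linarith
    · rw [not_le] at hc
      have hz2' : (z : ℝ) < 2 * L := by exact_mod_cast hz2
      have h1 := P_ge_sum (v := v) (m := z) (J := J2 L) (A := 5 * L)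
        (fun k hk => hv0 k (by omega)) (by
          intro k hk
          unfold J2 at hk
          rw [Finset.mem_Ico] at hk
          refine ⟨w_lb' (by omega) (by omega) (by linarith), by omega, by omega⟩)
      have h2 := hv z hz
      have h3 := hg z hz
      have h4 : (a - C * g L) / 40 ≤ (∑ k ∈ J2 L, v k) / (5 * L) := by
        by_cases hneg : a - C * g L < 0
        · have h5 : 0 ≤ (∑ k ∈ J2 L, v k) / (5 * L) := by
            apply div_nonneg _ (by positivity)
            apply Finset.sum_nonneg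
            intro k hk
            unfold J2 at hk
            rw [Finset.mem_Ico] at hk
            exact hv0 k (by omega)
          linarith
        · rw [not_lt] at hneg
          have h5 : (J2 L).card • (a - C * g L) ≤ ∑ k ∈ J2 L, v k := by
            apply Finset.card_nsmul_le_sum
            intro k hk
            unfold J2 at hk
            rw [Finset.mem_Ico] at hk
            exact s1 k (by omega) (by omega)
          rw [nsmul_eq_mul] at h5
          have h6 := J2_card hL
          have h7 : (L : ℝ) / 8 * (a - C * g L) ≤ (J2 L).card * (a - C * g L) :=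
            mul_le_mul_of_nonneg_right h6 hneg
          rw [le_div_iff₀ (by positivity)]
          nlinarith
      linarith
  -- minimum principle
  have h1 := max_principle (u := fun k => (-1) * v k) (M := -M) (C := C)
    (S := -(a / 40 - 2 * (C * g L))) (L := 2 * L) (by omega) hC
    (fun k => by have := hM k; linarith)
    (by
      intro m hm
      rw [P_smul]
      have := hv m (by omega)
      linarith)
    (by
      intro k hk1 hk2
      have := s2 k (by omega) hk2
      linarith)
  intro m hm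
  have h2 := h1 m (by omega)
  have e : 2 * L / 2 = L := by omega
  rw [e] at h2
  linarith

/-- bounded approximately harmonic sequences converge -/
theorem conv {u : ℕ → ℝ} {C : ℝ} {M0 : ℕ} (hC : 0 ≤ C) (h0 : ∀ k, 0 ≤ u k) (h1 : ∀ k, u k ≤ 1)
    (hu : ∀ m, M0 ≤ m → |u m - P u m| ≤ C * g m) : ∃ D : ℝ, Tendsto u atTop (𝓝 D) := by
  have hbu : IsBoundedUnder (· ≤ ·) atTop u := isBoundedUnder_of ⟨1, h1⟩
  have hbl : IsBoundedUnder (· ≥ ·) atTop u := isBoundedUnder_of ⟨0, h0⟩
  set Λ := limsup u atTop with hΛ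
  set lam := liminf u atTop with hlam
  have hkey : ∀ ε : ℝ, 0 < ε → Λ - lam ≤ 200000 * ε := by
    intro ε hε
    have e1 : ∀ᶠ k in atTop, u k < Λ + ε :=
      eventually_lt_of_limsup_lt (by rw [← hΛ]; linarith) hbu
    have e2 : ∀ᶠ k in atTop, lam - ε < u k :=
      eventually_lt_of_lt_liminf (by rw [← hlam]; linarith) hbl
    have e3 : ∀ᶠ k in atTop, C * g k < ε := by
      have h := tendsto_g.const_mul C
      rw [mul_zero] at h
      exact h.eventually_lt_const hε
    obtain ⟨N, hN⟩ := eventually_atTop.1 (e1.and (e2.and e3))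
    set L := 2 * (N + M0 + 1000) with hL
    have hL' : (1000 : ℝ) ≤ L := by
      have : 1000 ≤ L := by omega
      exact_mod_cast this
    have hCg : C * g L < ε := (hN L (by omega)).2.2
    have hlo := contraction (v := fun k => u k - (lam - ε)) (C := C) (M := -(lam - ε)) (L := L)
      (by omega) hC (fun k => by have := h0 k; linarith)
      (fun k hk => by have := (hN k (by omega)).2.1; linarith)
      (fun m hm => by
        rw [P_sub, P_const]
        have := abs_le.1 (hu m (by omega))
        linarith [this.1, this.2])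
    have hhi := contraction (v := fun k => (Λ + ε) - u k) (C := C) (M := Λ + ε - 1) (L := L)
      (by omega) hC (fun k => by have := h1 k; linarith)
      (fun k hk => by have := (hN k (by omega)).1; linarith)
      (fun m hm => by
        rw [P_sub, P_const]
        have := abs_le.1 (hu m (by omega))
        linarith [this.1, this.2])
    set a := (∑ k ∈ J1 L, (u k - (lam - ε))) / (3 * L) with ha
    set a' := (∑ k ∈ J1 L, ((Λ + ε) - u k)) / (3 * L) with ha'
    have hsum : (Λ - lam + 2 * ε) / 24 ≤ a + a' ∨ Λ - lam + 2 * ε < 0 := by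
      by_cases hneg : Λ - lam + 2 * ε < 0
      · exact Or.inr hneg
      · left
        rw [not_lt] at hneg
        rw [ha, ha', ← add_div, ← Finset.sum_add_distrib]
        have e : ∑ k ∈ J1 L, (u k - (lam - ε) + ((Λ + ε) - u k)) =
            (J1 L).card * (Λ - lam + 2 * ε) := by
          rw [← nsmul_eq_mul, ← Finset.sum_const]
          apply Finset.sum_congr rfl
          intro k _; ring
        rw [e, le_div_iff₀ (by positivity)]
        have h6 := J1_card (L := L) (by omega)
        have h7 : (L : ℝ) / 8 * (Λ - lam + 2 * ε) ≤ (J1 L).card * (Λ - lam + 2 * ε) :=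
          mul_le_mul_of_nonneg_right h6 hneg
        refine le_trans (le_of_eq ?_) h7
        ring
    rcases hsum with hsum | hneg
    · by_cases hcase : (Λ - lam + 2 * ε) / 48 ≤ a
      · have h5 : (Λ - lam + 2 * ε) / 1920 - 102 * ε + (lam - ε) ≤ lam := by
          apply le_liminf_of_le (IsBoundedUnder.isCoboundedUnder_ge hbu)
          rw [eventually_atTop]
          refine ⟨L, fun m hm => ?_⟩
          have := hlo m hm
          linarith
        linarith
      · rw [not_le] at hcase
        have h5 : Λ ≤ (Λ + ε) - ((Λ - lam + 2 * ε) / 1920 - 102 * ε) := by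
          apply limsup_le_of_le (IsBoundedUnder.isCoboundedUnder_le hbl)
          rw [eventually_atTop]
          refine ⟨L, fun m hm => ?_⟩
          have := hhi m hm
          linarith
        linarith
    · linarith
  have hle : Λ ≤ lam := by
    by_contra hcon
    rw [not_le] at hcon
    have := hkey ((Λ - lam) / 400000) (by linarith)
    linarith
  exact ⟨lam, tendsto_of_le_liminf_of_limsup_le le_rfl hle hbu hbl⟩

/-- natural density of an invariant set -/
theorem dens_exists {B : Set ℝ} (hB : Inv B) : ∃ D : ℝ, Tendsto (bb B) atTop (𝓝 D) := by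
  obtain ⟨M0, hM0⟩ : ∃ M0 : ℕ, ∀ m, M0 ≤ m → |bb B m - P (bb B) m| ≤ 22 * g m :=
    ⟨_, fun _ hm => harm hB hm⟩
  exact conv (C := 22) (by norm_num) (bb_nonneg B) (bb_le_one B) hM0

end Pool.Agent.W40.Ch
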