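import Pool.Agent.W40.Ch.A6

/-!
Positivity of the density and orbits that stay high.
-/

set_option autoImplicit false

namespace Pool.Agent.W40.Ch

open Real Set MeasureTheory Filter Topology
open Pool.Agent.H934R2.Ch (f df hasDerivAt_f continuous_f continuous_df)

/-- propagation of positivity -/
theorem prop_pos {B : Set ℝ} (hB : Inv B) {k m : ℕ} (hm : 1 ≤ m) (hk : 0 < bb B k)
    (hc : cell k ⊆ f '' Icc (m : ℝ) (m + 1)) : 0 < bb B m := by
  have h1 := pre_lb (A := B ∩ cell k) (inter_subset_right.trans hc)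
  have h2 : volume.real (cell m ∩ f ⁻¹' (B ∩ cell k)) ≤ bb B m := by
    rw [bb_eq hB hm]
    apply measureReal_mono _ (inter_fin _ _)
    intro x hx
    exact ⟨hx.1, hx.2.1⟩
  unfold bb at hk
  by_contra hcon
  rw [not_lt] at hcon
  have h3 : volume.real (cell m ∩ f ⁻¹' (B ∩ cell k)) ≤ 0 := h2.trans hcon
  have h4 : (2 * (m : ℝ) + 5) * volume.real (cell m ∩ f ⁻¹' (B ∩ cell k)) ≤ 0 :=
    mul_nonpos_of_nonneg_of_nonpos (by positivity) h3
  linarith

theorem cover12 : cell 1 ⊆ f '' Icc ((2 : ℕ) : ℝ) ((2 : ℕ) + 1) := by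
  have e1 := f_int 2
  have e2 := f_int 3
  norm_num at e1 e2
  apply cover
  · refine (min_le_left _ _).trans ?_
    push_cast
    rw [e1]
  · refine le_trans ?_ (le_max_right _ _)
    push_cast
    norm_num
    rw [e2]
    norm_num

theorem all_pos {B : Set ℝ} (hB : Inv B) {k0 : ℕ} (hk0 : 1 ≤ k0) (h : 0 < bb B k0) :
    ∀ k, k0 ≤ k → 0 < bb B k := by
  intro k hk
  induction k, hk using Nat.le_induction with
  | base => exact h
  | succ k hk ih =>
    rcases Nat.lt_or_ge k 2 with h2 | h2
    · have : k = 1 := by omega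
      subst this
      exact prop_pos hB (by norm_num) ih cover12
    · apply prop_pos hB (by omega) ih
      have h2' : (2 : ℝ) ≤ k := by exact_mod_cast h2
      apply cover'
      · push_cast; linarith
      · push_cast; linarith

/-- comparison of the two powers -/
theorem qq_g {l m : ℕ} (hl : 1 ≤ l) (h : l ≤ m) : qq m * g l ≤ g m * qq l := by
  have hl' : (0 : ℝ) < l := by exact_mod_cast hl
  have hm' : (0 : ℝ) < m := by exact_mod_cast hl.trans h
  have e : ∀ n : ℕ, (0 : ℝ) < n → qq n = g n * (n : ℝ) ^ (-(1 / 12) : ℝ) := by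
    intro n hn
    unfold qq g
    rw [← Real.rpow_add hn]
    norm_num
  rw [e m hm', e l hl']
  have h1 : (m : ℝ) ^ (-(1 / 12) : ℝ) ≤ (l : ℝ) ^ (-(1 / 12) : ℝ) := by
    apply Real.rpow_le_rpow_of_nonpos hl'
    · exact_mod_cast h
    · norm_num
  have h2 := mul_nonneg (g_nonneg m) (g_nonneg l)
  have h3 := mul_le_mul_of_nonneg_left h1 h2
  linarith

theorem tendsto_qq : Tendsto qq atTop (𝓝 0) := by
  have h := (tendsto_rpow_neg_atTop (y := (1 / 3 : ℝ)) (by norm_num)).comp
    tendsto_natCast_atTop_atTop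
  exact h

/-- the barrier -/
theorem barrier {L : ℕ} (hL : 30000 ≤ L) (hq : 4500 * qq (L / 2) ≤ 1) {m : ℕ} (hm : L ≤ m) :
    1 + g m / g (L / 2) ≤ (1 - 18 * qq m) * Q (qq m) (fun k => 1 + g k / g (L / 2)) m := by
  set l := L / 2 with hl
  have hl1 : 1 ≤ l := by omega
  have hlm : l ≤ m := by omega
  have hgl : 0 < g l := g_pos hl1
  obtain ⟨hok, _⟩ := ok (m := m) (by omega)
  have hq0 := qq_nonneg m
  set h : ℕ → ℝ := fun k => 1 + g k / g l with hh
  have h2 : ∀ k, m / 2 ≤ k → h k ≤ 2 := by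
    intro k hk
    have h3 := g_anti hl1 (by omega : l ≤ k)
    have : g k / g l ≤ 1 := (div_le_one hgl).2 h3
    simp only [hh]; linarith
  have h3 := P_le_Q hok h2 (by norm_num)
  have h4 : P h m = 1 + P g m / g l := by
    have e1 := P_add (fun _ => 1) (fun k => (1 / g l) * g k) m
    rw [P_const, P_smul] at e1
    have e2 : h = fun k => 1 + (1 / g l) * g k := by
      funext k; simp only [hh]; ring
    rw [e2, e1]; ring
  have h5 := lyap_a (m := m) (by omega)
  set x := g m / g l with hx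
  have hx0 : 0 ≤ x := div_nonneg (g_nonneg m) hgl.le
  have hx1 : x ≤ 1 := (div_le_one hgl).2 (g_anti hl1 hlm)
  have h6 : (1 + 1 / 100) * x ≤ P g m / g l := by
    rw [le_div_iff₀ hgl, hx]
    have : (1 + 1 / 100) * (g m / g l) * g l = (1 + 1 / 100) * g m := by field_simp
    rw [this]; exact h5
  -- 4500 q ≤ x
  have h7 : 4500 * qq m ≤ x := by
    rw [hx, le_div_iff₀ hgl]
    have h8 := qq_g hl1 hlm
    have h9 : g m * (4500 * qq l) ≤ g m * 1 := mul_le_mul_of_nonneg_left hq (g_nonneg m)
    nlinarith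
  have h8 : 1 + (1 + 1 / 100) * x - 8 * qq m ≤ Q (qq m) h m := by
    rw [h4] at h3
    linarith
  have h9 : 18 * qq m ≤ 1 := by linarith
  have h10 : (1 - 18 * qq m) * (1 + (1 + 1 / 100) * x - 8 * qq m) ≤
      (1 - 18 * qq m) * Q (qq m) h m := mul_le_mul_of_nonneg_left h8 (by linarith)
  refine le_trans ?_ h10
  have h11 : qq m * x ≤ qq m * 1 := mul_le_mul_of_nonneg_left hx1 hq0
  nlinarith [mul_nonneg hq0 hq0]

theorem Q_mono {u v : ℕ → ℝ} {m : ℕ} {q : ℝ} (hq : 0 < q) (h : ∀ k, m / 2 ≤ k → u k ≤ v k) :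
    Q q u m ≤ Q q v m := by
  unfold Q
  apply Finset.sum_le_sum
  intro k _
  by_cases h0 : wE q m k = 0
  · rw [h0]; simp
  · apply mul_le_mul_of_nonneg_left _ (wE_nonneg _ _ _)
    apply h
    apply w_pos_range
    intro h1
    apply h0
    have := wE_le hq m k
    have := wE_nonneg q m k
    linarith

theorem Q_comb (a : ℝ) (u v : ℕ → ℝ) (m : ℕ) (q : ℝ) :
    Q q (fun k => a * u k - v k) m = a * Q q u m - Q q v m := by
  unfold Q
  rw [Finset.mul_sum, ← Finset.sum_sub_distrib]
  apply Finset.sum_congr rfl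
  intro k _; ring

/-- uniform lower bound -/
theorem lower_bound {B : Set ℝ} (hB : Inv B) {L : ℕ} (hL : 30000 ≤ L)
    (hq : 4500 * qq (L / 2) ≤ 1) {β : ℝ} (hβ : 0 ≤ β) (hb : ∀ k, L / 2 ≤ k → k < L → β ≤ bb B k) :
    ∀ m, L / 2 ≤ m → β / 2 ≤ bb B m := by
  have hl1 : 1 ≤ L / 2 := by omega
  have hgl : 0 < g (L / 2) := g_pos hl1
  set h : ℕ → ℝ := fun k => 1 + g k / g (L / 2) with hh
  have hh1 : ∀ k, 1 ≤ h k := fun k => by
    have : 0 ≤ g k / g (L / 2) := div_nonneg (g_nonneg k) hgl.le
    simp only [hh]; linarith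
  have hh2 : ∀ k, L / 2 ≤ k → h k ≤ 2 := by
    intro k hk
    have : g k / g (L / 2) ≤ 1 := (div_le_one hgl).2 (g_anti hl1 hk)
    simp only [hh]; linarith
  set d : ℕ → ℝ := fun k => if L / 2 ≤ k then max (β / 2 * h k - bb B k) 0 else 0 with hd
  have hd0 : ∀ k, 0 ≤ d k := by
    intro k; simp only [hd]; split_ifs
    · exact le_max_right _ _
    · exact le_rfl
  have hmax := max_principle (u := d) (M := β) (C := 0) (S := 0) (L := L) (by omega) le_rfl
    (by
      intro k; simp only [hd]; split_ifs with hk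
      · have h1 := hh2 k hk
        have h2 := bb_nonneg B k
        exact max_le (by nlinarith) hβ
      · exact hβ)
    (by
      intro m hm
      rw [zero_mul, add_zero]
      have hPd : 0 ≤ P d m := Finset.sum_nonneg fun k _ => mul_nonneg (w_nonneg _ _) (hd0 k)
      have hmL : L / 2 ≤ m := by omega
      simp only [hd, if_pos hmL]
      apply max_le _ hPd
      obtain ⟨hok, hrr⟩ := ok (m := m) (by omega)
      have hq0 := qq_nonneg m
      have hqm : 18 * qq m ≤ 1 := by
        have h8 := qq_g hl1 hmL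
        have h9 := g_anti hl1 hmL
        have h10 : g m * qq (L / 2) ≤ g (L / 2) * qq (L / 2) :=
          mul_le_mul_of_nonneg_right h9 (qq_nonneg _)
        have h11 : qq m * g (L / 2) ≤ qq (L / 2) * g (L / 2) := by linarith
        have h12 := le_of_mul_le_mul_right h11 hgl
        linarith
      have h1 := step_lower hB hok
      have h2 := barrier hL hq hm
      have hQb : 0 ≤ Q (qq m) (bb B) m := by
        unfold Q
        exact Finset.sum_nonneg fun k _ => mul_nonneg (wE_nonneg _ _ _) (bb_nonneg _ _)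
      have h3 : (1 - 18 * qq m) * Q (qq m) (bb B) m ≤ (1 - 3 * rr m (qq m)) * Q (qq m) (bb B) m :=
        mul_le_mul_of_nonneg_right (by linarith) hQb
      have h4 : β / 2 * h m ≤ (1 - 18 * qq m) * (β / 2 * Q (qq m) h m) := by
        have := mul_le_mul_of_nonneg_left h2 (by linarith : 0 ≤ β / 2)
        linarith
      have h5 : β / 2 * h m - bb B m ≤
          (1 - 18 * qq m) * Q (qq m) (fun k => β / 2 * h k - bb B k) m := by
        rw [Q_comb]; linarith
      refine h5.trans ?_
      have h6 : Q (qq m) (fun k => β / 2 * h k - bb B k) m ≤ Q (qq m) d m := by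
        apply Q_mono hok.q0
        intro k hk
        have hk2 : L / 2 ≤ k := by omega
        simp only [hd, if_pos hk2]
        exact le_max_left _ _
      have h7 : 0 ≤ Q (qq m) d m := by
        unfold Q
        exact Finset.sum_nonneg fun k _ => mul_nonneg (wE_nonneg _ _ _) (hd0 k)
      have h8 := Q_le_P hok.q0 hd0 m
      have h9 : (1 - 18 * qq m) * Q (qq m) (fun k => β / 2 * h k - bb B k) m ≤
          (1 - 18 * qq m) * Q (qq m) d m := mul_le_mul_of_nonneg_left h6 (by linarith)
      have h10 : (1 - 18 * qq m) * Q (qq m) d m ≤ 1 * Q (qq m) d m :=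
        mul_le_mul_of_nonneg_right (by linarith) h7
      linarith)
    (by
      intro k hk1 hk2
      simp only [hd, if_pos hk1]
      apply max_le _ le_rfl
      have h1 := hb k hk1 hk2
      have h2 := hh2 k hk1
      nlinarith)
  intro m hm
  have h1 := hmax m hm
  rw [mul_zero, zero_mul, add_zero] at h1
  simp only [hd, if_pos hm] at h1
  have h2 := (le_max_left _ _).trans h1
  have h3 := hh1 m
  nlinarith

end Pool.Agent.W40.Ch
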