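import Pool.Agent.W40.Ch.A7

/-!
The density as a measure on invariant sets; orbits that stay high.
-/

set_option autoImplicit false

namespace Pool.Agent.W40.Ch

open Real Set MeasureTheory Filter Topology
open Pool.Agent.H934R2.Ch (f df hasDerivAt_f continuous_f continuous_df)

theorem Ioi_cover : Ioi (1 : ℝ) ⊆ ⋃ k : ℕ, cell (k + 1) := by
  intro x hx
  have hx1 : (1 : ℝ) < x := hx
  rw [mem_iUnion]
  have h1 : 1 ≤ ⌊x⌋₊ := by rw [Nat.one_le_floor_iff]; exact hx1.le
  refine ⟨⌊x⌋₊ - 1, ?_⟩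
  have h2 := mem_cell_floor (y := x) (by linarith)
  rwa [Nat.sub_add_cancel h1]

theorem exists_pos {B : Set ℝ} (h : volume (B ∩ Ioi 1) ≠ 0) : ∃ k, 1 ≤ k ∧ 0 < bb B k := by
  by_contra hcon
  apply h
  push Not at hcon
  apply measure_mono_null (t := ⋃ k : ℕ, B ∩ cell (k + 1))
  · rw [← inter_iUnion]
    exact inter_subset_inter_right _ Ioi_cover
  · rw [measure_iUnion_null_iff]
    intro k
    have h1 := hcon (k + 1) (by omega)
    have h2 : bb B (k + 1) = 0 := le_antisymm h1 (bb_nonneg _ _)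
    unfold bb at h2
    exact (measureReal_eq_zero_iff (inter_fin' B (k + 1))).1 h2

theorem dens_pos {B : Set ℝ} (hB : Inv B) (h : volume (B ∩ Ioi 1) ≠ 0) {D : ℝ}
    (hD : Tendsto (bb B) atTop (𝓝 D)) : 0 < D := by
  obtain ⟨k0, hk0, hpos⟩ := exists_pos h
  have hall := all_pos hB hk0 hpos
  have e1 : ∀ᶠ l in atTop, 4500 * qq l < 1 := by
    have h := tendsto_qq.const_mul 4500
    rw [mul_zero] at h
    exact h.eventually_lt_const (by norm_num)
  obtain ⟨N, hN⟩ := eventually_atTop.1 e1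
  set L := 2 * (N + k0 + 15000) with hL
  have hL2 : L / 2 = N + k0 + 15000 := by omega
  obtain ⟨k1, hk1, hmin⟩ := Finset.exists_min_image (Finset.Ico (L / 2) L) (bb B)
    ⟨L / 2, Finset.mem_Ico.2 ⟨le_rfl, by omega⟩⟩
  rw [Finset.mem_Ico] at hk1
  have hβ : 0 < bb B k1 := hall k1 (by omega)
  have hlow := lower_bound hB (L := L) (by omega) (hN _ (by omega)).le hβ.le
    (fun k h1 h2 => hmin k (Finset.mem_Ico.2 ⟨h1, h2⟩))
  have h3 : bb B k1 / 2 ≤ D := by
    apply ge_of_tendsto hD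
    rw [eventually_atTop]
    exact ⟨L / 2, hlow⟩
  linarith

theorem dens_zero {B : Set ℝ} (h : volume (B ∩ Ioi 1) = 0) {D : ℝ}
    (hD : Tendsto (bb B) atTop (𝓝 D)) : D = 0 := by
  have h1 : Tendsto (bb B) atTop (𝓝 0) := by
    apply tendsto_const_nhds.congr'
    filter_upwards [eventually_ge_atTop 2] with k hk
    symm
    unfold bb
    rw [measureReal_eq_zero_iff (inter_fin' B k)]
    apply measure_mono_null _ h
    intro x hx
    refine ⟨hx.1, ?_⟩
    have h2 : (2 : ℝ) ≤ k := by exact_mod_cast hk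
    have h3 := hx.2.1
    show (1 : ℝ) < x
    linarith
  exact tendsto_nhds_unique hD h1

theorem Inv.union {ι : Type} [Countable ι] {B : ι → Set ℝ} (h : ∀ i, Inv (B i)) :
    Inv (⋃ i, B i) := by
  refine ⟨MeasurableSet.iUnion fun i => (h i).1, fun x hx => ?_⟩
  rw [mem_iUnion, mem_iUnion]
  exact exists_congr fun i => (h i).2 x hx

theorem Inv.diff {A B : Set ℝ} (hA : Inv A) (hB : Inv B) : Inv (A \ B) := by
  refine ⟨hA.1.diff hB.1, fun x hx => ?_⟩
  rw [Set.mem_sdiff, Set.mem_sdiff, hA.2 x hx, hB.2 x hx]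

theorem bb_finset {B : ℕ → Set ℝ} (hB : ∀ i, MeasurableSet (B i))
    (hd : Pairwise (Function.onFun Disjoint B)) (N k : ℕ) :
    bb (⋃ i ∈ Finset.range N, B i) k = ∑ i ∈ Finset.range N, bb (B i) k := by
  unfold bb
  rw [iUnion₂_inter]
  apply measureReal_biUnion_finset
  · intro i _ j _ hij
    exact (hd hij).mono inter_subset_left inter_subset_left
  · intro i _
    exact (hB i).inter (cell_meas k)
  · intro i _
    exact inter_fin' _ _

theorem bb_diff {A B : Set ℝ} (hB : MeasurableSet B) (h : B ⊆ A) (k : ℕ) :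
    bb (A \ B) k = bb A k - bb B k := by
  unfold bb
  have h1 : (A \ B) ∩ cell k = (A ∩ cell k) \ (B ∩ cell k) := by
    ext x; simp only [mem_inter_iff, Set.mem_sdiff]; tauto
  rw [h1, measureReal_sdiff (inter_subset_inter_left _ h) (hB.inter (cell_meas k))
    (inter_fin' _ _)]

theorem bb_sum_tendsto {B : ℕ → Set ℝ} (hB : ∀ i, MeasurableSet (B i))
    (hd : Pairwise (Function.onFun Disjoint B)) (k : ℕ) :
    Tendsto (fun N => ∑ i ∈ Finset.range N, bb (B i) k) atTop (𝓝 (bb (⋃ i, B i) k)) := by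
  have h1 : volume ((⋃ i, B i) ∩ cell k) = ∑' i, volume (B i ∩ cell k) := by
    rw [iUnion_inter]
    apply measure_iUnion
    · intro i j hij
      exact (hd hij).mono inter_subset_left inter_subset_left
    · intro i
      exact (hB i).inter (cell_meas k)
  have h2 : ∑' i, volume (B i ∩ cell k) ≠ ⊤ := by
    rw [← h1]; exact inter_fin' _ _
  have h3 := ENNReal.hasSum_toReal h2
  have h4 := h3.tendsto_sum_nat
  have h5 : ∀ i, volume (B i ∩ cell k) ≠ ⊤ := fun i => inter_fin' _ _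
  rw [← ENNReal.tsum_toReal_eq h5, ← h1] at h4
  exact h4

/-- countable additivity of the density -/
theorem dens_sum {B : ℕ → Set ℝ} (hB : ∀ i, Inv (B i))
    (hd : Pairwise (Function.onFun Disjoint B)) {D : ℕ → ℝ}
    (hD : ∀ i, Tendsto (bb (B i)) atTop (𝓝 (D i))) :
    ∃ s, Tendsto (bb (⋃ i, B i)) atTop (𝓝 s) ∧ HasSum D s := by
  have hU := Inv.union hB
  obtain ⟨s, hs⟩ := dens_exists hU
  refine ⟨s, hs, ?_⟩
  have hD0 : ∀ i, 0 ≤ D i := fun i => ge_of_tendsto' (hD i) fun k => bb_nonneg _ _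
  rw [hasSum_iff_tendsto_nat_of_nonneg hD0]
  have hbm : ∀ i, MeasurableSet (B i) := fun i => (hB i).1
  -- tails
  set R : ℕ → Set ℝ := fun N => (⋃ i, B i) \ ⋃ i ∈ Finset.range N, B i with hR
  have hRi : ∀ N, Inv (R N) := by
    intro N
    apply hU.diff
    have e : (⋃ i ∈ Finset.range N, B i) = ⋃ i : {i // i ∈ Finset.range N}, B i := by
      rw [iUnion_subtype]
    rw [e]
    exact Inv.union fun i => hB i
  have hRb : ∀ N k, bb (R N) k = bb (⋃ i, B i) k - ∑ i ∈ Finset.range N, bb (B i) k := by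
    intro N k
    rw [hR]
    simp only
    rw [bb_diff (Finset.measurableSet_biUnion _ fun i _ => hbm i)
      (iUnion₂_subset fun i _ => subset_iUnion B i), bb_finset hbm hd]
  have hRd : ∀ N, Tendsto (bb (R N)) atTop (𝓝 (s - ∑ i ∈ Finset.range N, D i)) := by
    intro N
    have h1 : Tendsto (fun k => bb (⋃ i, B i) k - ∑ i ∈ Finset.range N, bb (B i) k) atTop
        (𝓝 (s - ∑ i ∈ Finset.range N, D i)) :=
      hs.sub (tendsto_finsetSum _ fun i _ => hD i)
    refine h1.congr fun k => ?_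
    rw [hRb]
  rw [Metric.tendsto_atTop]
  intro ε hε
  have e1 : ∀ᶠ l in atTop, 2200 * g l < ε / 2 := by
    have h := tendsto_g.const_mul 2200
    rw [mul_zero] at h
    exact h.eventually_lt_const (by linarith)
  obtain ⟨N1, hN1⟩ := eventually_atTop.1 e1
  obtain ⟨L, hL⟩ : ∃ L : ℕ, L = 2 * (N1 + 13824) := ⟨_, rfl⟩
  have hL2 : L / 2 = N1 + 13824 := by omega
  have hharm : ∀ N m, L ≤ m → bb (R N) m ≤ P (bb (R N)) m + 22 * g m := by
    intro N m hm
    have h13 : 13824 ≤ m := by omega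
    have h14 := abs_le.1 (harm (hRi N) h13)
    linarith [h14.2]
  -- smallness on the window
  have hwin : ∀ᶠ N in atTop, ∀ k ∈ Finset.Ico (L / 2) L, bb (R N) k < ε / 4 := by
    rw [Filter.eventually_all_finset]
    intro k _
    have h1 := (tendsto_const_nhds (x := bb (⋃ i, B i) k)).sub (bb_sum_tendsto hbm hd k)
    rw [sub_self] at h1
    have h2 := h1.eventually_lt_const (by linarith : (0 : ℝ) < ε / 4)
    filter_upwards [h2] with N hN
    rw [hRb]
    exact hN
  obtain ⟨N0, hN0⟩ := eventually_atTop.1 hwin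
  refine ⟨N0, fun N hN => ?_⟩
  have hmax := max_principle (u := bb (R N)) (M := 1) (C := 22) (S := ε / 4) (L := L) (by omega)
    (by norm_num) (bb_le_one _)
    (fun m hm => hharm N m hm)
    (fun k h1 h2 => (hN0 N hN k (Finset.mem_Ico.2 ⟨h1, h2⟩)).le)
  have h1 : s - ∑ i ∈ Finset.range N, D i ≤ ε / 4 + 100 * 22 * g (L / 2) := by
    apply le_of_tendsto (hRd N)
    rw [eventually_atTop]
    exact ⟨L / 2, hmax⟩
  have h2 : 0 ≤ s - ∑ i ∈ Finset.range N, D i := ge_of_tendsto' (hRd N) fun k => bb_nonneg _ _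
  have h3 := hN1 (L / 2) (by omega)
  rw [Real.dist_eq, abs_sub_comm, abs_of_nonneg h2]
  linarith

/-- the points whose orbit never goes below `L` -/
def High (L : ℕ) : Set ℝ := {x | ∀ k : ℕ, (L : ℝ) ≤ f^[k] x}

theorem high_meas (L : ℕ) : MeasurableSet (High L) := by
  have e : High L = ⋂ k : ℕ, (f^[k]) ⁻¹' Ici (L : ℝ) := by
    ext x; simp [High]
  rw [e]
  exact MeasurableSet.iInter fun k => (continuous_f.iterate k).measurable measurableSet_Ici

theorem high_step {L : ℕ} {x : ℝ} (h : x ∈ High L) : f x ∈ High L := by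
  intro k
  have := h (k + 1)
  rwa [Function.iterate_succ_apply] at this

theorem high_low {L m : ℕ} (h : m < L) : bb (High L) m = 0 := by
  unfold bb
  have : High L ∩ cell m = ∅ := by
    ext x
    simp only [mem_inter_iff, mem_empty_iff_false, iff_false, not_and]
    intro h1 h2
    have h3 : (L : ℝ) ≤ x := h1 0
    have h4 : ((m + 1 : ℕ) : ℝ) ≤ L := by exact_mod_cast h
    push_cast at h4
    linarith [h2.2]
  rw [this]
  simp

theorem high_bound {L : ℕ} (hL : 13824 ≤ L) (m : ℕ) : bb (High L) m ≤ 2200 * g (L / 2) := by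
  rcases Nat.lt_or_ge m (L / 2) with h | h
  · rw [high_low (by omega)]
    have := g_nonneg (L / 2)
    linarith
  · have h1 := max_principle (u := bb (High L)) (M := 1) (C := 22) (S := 0) (L := L) (by omega)
      (by norm_num) (bb_le_one _)
      (fun m hm => by
        obtain ⟨hok, hrr⟩ := ok (m := m) (by omega)
        have h2 := up_bound (high_meas L) hok
        have h3 : bb (High L) m ≤ volume.real (cell m ∩ f ⁻¹' High L) := by
          unfold bb
          apply measureReal_mono _ (inter_fin _ _)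
          rintro x ⟨hx1, hx2⟩
          exact ⟨hx2, high_step hx1⟩
        have h4 := qq_le_g (m := m) (by omega)
        linarith)
      (fun k _ h2 => (high_low h2).le) m h
    linarith

theorem high_final (L m : ℕ) (hL : 1 ≤ L) :
    bb (High L) m ≤ 3000 * (L : ℝ) ^ (-(1 / 4) : ℝ) := by
  have hL' : (1 : ℝ) ≤ L := by exact_mod_cast hL
  rcases Nat.lt_or_ge L 13824 with h | h
  · refine (bb_le_one _ _).trans ?_
    have h1 : (20736 : ℝ) ^ (-(1 / 4) : ℝ) ≤ (L : ℝ) ^ (-(1 / 4) : ℝ) := by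
      apply Real.rpow_le_rpow_of_nonpos (by linarith)
      · have : (L : ℝ) < 13824 := by exact_mod_cast h
        linarith
      · norm_num
    have h2 : (20736 : ℝ) ^ (-(1 / 4) : ℝ) = 1 / 12 := by
      have : (20736 : ℝ) = 12 ^ (4 : ℝ) := by norm_num
      rw [this, ← Real.rpow_mul (by norm_num)]
      norm_num
    rw [h2] at h1
    linarith
  · refine (high_bound h m).trans ?_
    have h1 : g (L / 2) ≤ ((L : ℝ) / 3) ^ (-(1 / 4) : ℝ) := by
      unfold g
      apply Real.rpow_le_rpow_of_nonpos (by linarith)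
      · have : L ≤ 3 * (L / 2) := by omega
        have h2 : (L : ℝ) ≤ 3 * ((L / 2 : ℕ) : ℝ) := by exact_mod_cast this
        linarith
      · norm_num
    have h2 : ((L : ℝ) / 3) ^ (-(1 / 4) : ℝ) = (L : ℝ) ^ (-(1 / 4) : ℝ) * (3 : ℝ) ^ (1 / 4 : ℝ) := by
      rw [Real.div_rpow (by linarith) (by norm_num), Real.rpow_neg (by norm_num : (0 : ℝ) ≤ 3)]
      field_simp
    have h3 : (3 : ℝ) ^ (1 / 4 : ℝ) ≤ 1.32 := by
      have : (3 : ℝ) ≤ 1.32 ^ (4 : ℝ) := by norm_num
      calc (3 : ℝ) ^ (1 / 4 : ℝ) ≤ (1.32 ^ (4 : ℝ)) ^ (1 / 4 : ℝ) :=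
            Real.rpow_le_rpow (by norm_num) this (by norm_num)
        _ = 1.32 := by rw [← Real.rpow_mul (by norm_num)]; norm_num
    rw [h2] at h1
    have h4 : (L : ℝ) ^ (-(1 / 4) : ℝ) * (3 : ℝ) ^ (1 / 4 : ℝ) ≤ (L : ℝ) ^ (-(1 / 4) : ℝ) * 1.32 :=
      mul_le_mul_of_nonneg_left h3 (by positivity)
    have h5 : 0 ≤ (L : ℝ) ^ (-(1 / 4) : ℝ) := by positivity
    linarith

end Pool.Agent.W40.Ch
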