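import Pool.Agent.W40.Ch.A8

/-!
Basins of attracting cycles.
-/

set_option autoImplicit false

namespace Pool.Agent.W40.Ch

open Real Set MeasureTheory Filter Topology
open Pool.Agent.H934R2.Ch (f df hasDerivAt_f continuous_f continuous_df AttrPt Attracts)

/-- the basin of the cycle of `y` -/
def Basin (y : ℝ) : Set ℝ := {x | 0 < x ∧ Attracts y x}

theorem basin_meas (y : ℝ) : MeasurableSet (Basin y) := by
  have e : Basin y = Ioi 0 ∩ ⋃ j : ℕ, {x | Tendsto
      (fun k : ℕ => f^[k * Function.minimalPeriod f y + j] x) atTop (𝓝 y)} := by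
    ext x
    simp only [Basin, Attracts, mem_ofPred_eq, mem_inter_iff, mem_Ioi, mem_iUnion]
  rw [e]
  apply measurableSet_Ioi.inter
  apply MeasurableSet.iUnion
  intro j
  apply measurableSet_tendsto
  intro k
  exact (continuous_f.iterate _).measurable

theorem attracts_f {y x : ℝ} (hy : 0 < Function.minimalPeriod f y) :
    Attracts y x ↔ Attracts y (f x) := by
  obtain ⟨q, hq⟩ : ∃ q, Function.minimalPeriod f y = q + 1 :=
    ⟨_, (Nat.succ_pred_eq_of_pos hy).symm⟩
  constructor
  · rintro ⟨j, hj⟩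
    refine ⟨j + q, ?_⟩
    have h2 : (fun k : ℕ => f^[k * Function.minimalPeriod f y + (j + q)] (f x))
        = fun k : ℕ => (fun k : ℕ => f^[k * Function.minimalPeriod f y + j] x) (k + 1) := by
      funext k
      rw [← Function.iterate_succ_apply]
      show f^[(k * Function.minimalPeriod f y + (j + q)).succ] x
        = f^[(k + 1) * Function.minimalPeriod f y + j] x
      congr 1
      rw [hq]
      have : (k * (q + 1) + (j + q)).succ = (k + 1) * (q + 1) + j := by
        rw [Nat.succ_eq_add_one]; ring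
      rw [this]
    rw [h2]
    exact hj.comp (tendsto_add_atTop_nat 1)
  · rintro ⟨j, hj⟩
    refine ⟨j + 1, ?_⟩
    have h2 : (fun k : ℕ => f^[k * Function.minimalPeriod f y + (j + 1)] x)
        = fun k : ℕ => f^[k * Function.minimalPeriod f y + j] (f x) := by
      funext k
      rw [← Function.iterate_succ_apply]
      rfl
    rw [h2]
    exact hj

theorem basin_inv {y : ℝ} (hy : 0 < Function.minimalPeriod f y) : Inv (Basin y) := by
  refine ⟨basin_meas y, fun x hx => ?_⟩
  simp only [Basin, mem_ofPred_eq]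
  rw [← attracts_f hy]
  exact ⟨fun h => ⟨f_pos hx, h.2⟩, fun h => ⟨hx, h.2⟩⟩

/-- local attraction -/
theorem local_attr {F : ℝ → ℝ} {y lam : ℝ} (hF : HasDerivAt F lam y) (hy : F y = y)
    (hl : |lam| < 1) : ∀ᶠ x in 𝓝 y, Tendsto (fun k : ℕ => F^[k] x) atTop (𝓝 y) := by
  set c := (1 - |lam|) / 2 with hc
  have hc0 : 0 < c := by rw [hc]; linarith
  have h1 := hF.hasFDerivAt.isLittleO.def hc0
  rw [Metric.eventually_nhds_iff] at h1
  obtain ⟨δ, hδ, h1⟩ := h1
  set r := |lam| + c with hr
  have hr0 : 0 ≤ r := by have := abs_nonneg lam; linarith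
  have hr1 : r < 1 := by rw [hr, hc]; linarith
  have h2 : ∀ x, |x - y| < δ → |F x - y| ≤ r * |x - y| := by
    intro x hx
    have h3 := h1 (y := x) (by rw [Real.dist_eq]; exact hx)
    rw [hy] at h3
    simp only [ContinuousLinearMap.toSpanSingleton_apply, smul_eq_mul, Real.norm_eq_abs] at h3
    have h4 : F x - y = (F x - y - (x - y) * lam) + (x - y) * lam := by ring
    rw [h4]
    refine (abs_add_le _ _).trans ?_
    rw [abs_mul (x - y) lam]
    rw [hr]
    linarith
  rw [Metric.eventually_nhds_iff]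
  refine ⟨δ, hδ, fun x hx => ?_⟩
  rw [Real.dist_eq] at hx
  have h3 : ∀ k : ℕ, |F^[k] x - y| ≤ r ^ k * |x - y| := by
    intro k
    induction k with
    | zero => simp
    | succ k ih =>
      rw [Function.iterate_succ_apply']
      have h5 : r ^ k * |x - y| ≤ |x - y| := by
        have := pow_le_one₀ (n := k) hr0 hr1.le
        have h6 := abs_nonneg (x - y)
        nlinarith
      have h4 := h2 (F^[k] x) (by linarith)
      refine h4.trans ?_
      rw [pow_succ]
      have := mul_le_mul_of_nonneg_left ih hr0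
      linarith
  have h4 : Tendsto (fun k : ℕ => r ^ k * |x - y|) atTop (𝓝 0) := by
    have := (tendsto_pow_atTop_nhds_zero_of_lt_one hr0 hr1).mul_const |x - y|
    rwa [zero_mul] at this
  rw [tendsto_iff_norm_sub_tendsto_zero]
  exact squeeze_zero (fun _ => norm_nonneg _) h3 h4

theorem hasDerivAt_iterate (x : ℝ) (k : ℕ) : HasDerivAt (f^[k]) (deriv (f^[k]) x) x :=
  (Pool.Agent.H934R2.Ch.hasDerivAt_iter x k).differentiableAt.hasDerivAt

theorem attr_nhds {y : ℝ} (hy : AttrPt y) : ∀ᶠ x in 𝓝 y, Attracts y x := by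
  have hp : f^[Function.minimalPeriod f y] y = y := Function.iterate_minimalPeriod
  filter_upwards [local_attr (hasDerivAt_iterate y _) hp hy.2.2] with x hx
  refine ⟨0, hx.congr fun k => ?_⟩
  rw [add_zero, mul_comm, Function.iterate_mul]

/-- the basin contains a neighbourhood of every point of the cycle -/
theorem attr_nhds' {y : ℝ} (hy : AttrPt y) (i : ℕ) : ∀ᶠ x in 𝓝 (f^[i] y), Attracts y x := by
  obtain ⟨j, hj⟩ : ∃ j : ℕ, f^[j] (f^[i] y) = y := by
    refine ⟨(i + 1) * Function.minimalPeriod f y - i, ?_⟩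
    rw [← Function.iterate_add_apply]
    have h1 : i ≤ (i + 1) * Function.minimalPeriod f y := by
      have := hy.2.1
      nlinarith
    rw [Nat.sub_add_cancel h1, mul_comm, Function.iterate_mul]
    exact Function.IsFixedPt.iterate Function.iterate_minimalPeriod _
  have hc : Tendsto (f^[j]) (𝓝 (f^[i] y)) (𝓝 y) := by
    have := (continuous_f.iterate j).tendsto (f^[i] y)
    rwa [hj] at this
  filter_upwards [hc.eventually (attr_nhds hy)] with x hx
  -- Attracts y (f^[j] x) → Attracts y x
  have key : ∀ (j : ℕ) (x : ℝ), Attracts y (f^[j] x) → Attracts y x := by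
    intro j
    induction j with
    | zero => intro x h; exact h
    | succ j ih =>
      intro x h
      rw [Function.iterate_succ_apply] at h
      exact (attracts_f hy.2.1).2 (ih _ h)
  exact key j x hx

/-- auxiliary function: `f x ≤ x` iff `1 ≤ psi x` -/
noncomputable def psi (x : ℝ) : ℝ := (2 * x + 1) * cos (π * x)

noncomputable def dpsi (x : ℝ) : ℝ := 2 * cos (π * x) - π * (2 * x + 1) * sin (π * x)

theorem f_psi (x : ℝ) : f x = x + (1 - psi x) / 4 := by unfold f psi; ring

theorem hasDerivAt_psi (x : ℝ) : HasDerivAt psi (dpsi x) x := by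
  have h0 : HasDerivAt (fun x : ℝ => π * x) (π * 1) x := (hasDerivAt_id x).const_mul π
  have h1 := h0.cos
  have h2 : HasDerivAt (fun x : ℝ => 2 * x + 1) (2 * 1) x :=
    ((hasDerivAt_id x).const_mul 2).add_const 1
  have h3 := h2.mul h1
  refine h3.congr_deriv ?_
  unfold dpsi; ring

theorem df_psi (x : ℝ) : df x = 1 - dpsi x / 4 := by unfold df dpsi; ring

theorem dpsi_anti {x y : ℝ} (hx : 0 ≤ x) (h : x < y) (hy : y ≤ 1 / 2) : dpsi y < dpsi x := by
  have hp := Real.pi_pos
  have h1 : cos (π * y) < cos (π * x) :=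
    Real.cos_lt_cos_of_nonneg_of_le_pi_div_two (by positivity) (by nlinarith) (by nlinarith)
  have h2 : sin (π * x) < sin (π * y) :=
    Real.sin_lt_sin_of_lt_of_le_pi_div_two (by nlinarith) (by nlinarith) (by nlinarith)
  have h3 : 0 ≤ sin (π * x) := Real.sin_nonneg_of_nonneg_of_le_pi (by positivity) (by nlinarith)
  unfold dpsi
  have h4 : (2 * x + 1) * sin (π * x) ≤ (2 * y + 1) * sin (π * y) :=
    mul_le_mul (by linarith) h2.le h3 (by linarith)
  have h5 : π * ((2 * x + 1) * sin (π * x)) ≤ π * ((2 * y + 1) * sin (π * y)) :=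
    mul_le_mul_of_nonneg_left h4 hp.le
  linarith

/-- mean value theorem for `psi` -/
theorem psi_mvt {x y : ℝ} (h : x < y) : ∃ ξ, x < ξ ∧ ξ < y ∧ psi y - psi x = dpsi ξ * (y - x) := by
  obtain ⟨ξ, hξ, he⟩ := exists_hasDerivAt_eq_slope psi dpsi h
    (fun z _ => (hasDerivAt_psi z).continuousAt.continuousWithinAt) (fun z _ => hasDerivAt_psi z)
  refine ⟨ξ, hξ.1, hξ.2, ?_⟩
  rw [he]
  have : y - x ≠ 0 := by linarith
  field_simp

theorem psi_zero : psi 0 = 1 := by unfold psi; simp

theorem lt_half {z : ℝ} (hz : 0 < z) (hz1 : z ≤ 1) (h : 1 ≤ psi z) : z < 1 / 2 := by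
  by_contra hcon
  rw [not_lt] at hcon
  have hp := Real.pi_pos
  have h1 : cos (π * z) ≤ 0 := Real.cos_nonpos_of_pi_div_two_le_of_le (by nlinarith) (by nlinarith)
  unfold psi at h
  nlinarith

/-- every attracting cycle in the half line has a point above `1` -/
theorem exists_gt_one {y : ℝ} (hy : AttrPt y) : ∃ i, 1 < f^[i] y := by
  by_contra hcon
  push Not at hcon
  set p := Function.minimalPeriod f y with hp
  have hp0 : 0 < p := hy.2.1
  have hpos : ∀ i, 0 < f^[i] y := by
    intro i
    induction i with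
    | zero => exact hy.1
    | succ i ih => rw [Function.iterate_succ_apply']; exact f_pos ih
  have hper : ∀ i, ∃ j, j < p ∧ f^[j] y = f^[i] y := by
    intro i
    exact ⟨i % p, Nat.mod_lt _ hp0, Function.iterate_mod_minimalPeriod_eq⟩
  obtain ⟨iM, _, hM⟩ := Finset.exists_max_image (Finset.range p) (fun i => f^[i] y)
    ⟨0, Finset.mem_range.2 hp0⟩
  obtain ⟨im, _, hm⟩ := Finset.exists_min_image (Finset.range p) (fun i => f^[i] y)
    ⟨0, Finset.mem_range.2 hp0⟩
  set z := f^[iM] y with hz
  set w := f^[im] y with hw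
  have hzmax : ∀ i, f^[i] y ≤ z := by
    intro i
    obtain ⟨j, hj, he⟩ := hper i
    rw [← he]; exact hM j (Finset.mem_range.2 hj)
  have hwmin : ∀ i, w ≤ f^[i] y := by
    intro i
    obtain ⟨j, hj, he⟩ := hper i
    rw [← he]; exact hm j (Finset.mem_range.2 hj)
  have hz1 : 1 ≤ psi z := by
    have h1 : f z ≤ z := by
      have := hzmax (iM + 1)
      rwa [Function.iterate_succ_apply'] at this
    rw [f_psi] at h1
    linarith
  have hw1 : psi w ≤ 1 := by
    have h1 : w ≤ f w := by
      have := hwmin (im + 1)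
      rwa [Function.iterate_succ_apply'] at this
    rw [f_psi] at h1
    linarith
  have hz0 : 0 < z := hpos _
  have hw0 : 0 < w := hpos _
  have hzh := lt_half hz0 (hcon iM) hz1
  have hwz : w ≤ z := hzmax im
  rcases hwz.lt_or_eq with hlt | heq
  · obtain ⟨ξ1, a1, a2, a3⟩ := psi_mvt hw0
    obtain ⟨ξ2, b1, b2, b3⟩ := psi_mvt hlt
    have h1 : dpsi ξ1 ≤ 0 := by
      rw [psi_zero] at a3
      by_contra h
      rw [not_le] at h
      have : 0 < dpsi ξ1 * (w - 0) := by apply mul_pos h; linarith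
      linarith
    have h2 : 0 ≤ dpsi ξ2 := by
      by_contra h
      rw [not_le] at h
      have : dpsi ξ2 * (z - w) < 0 := mul_neg_of_neg_of_pos h (by linarith)
      linarith
    have h3 := dpsi_anti (x := ξ1) (y := ξ2) a1.le (by linarith) (by linarith)
    linarith
  · -- fixed point
    have hpz : psi z = 1 := le_antisymm (by rw [← heq]; exact hw1) hz1
    have hyz : y = z := le_antisymm (hzmax 0) (by rw [← heq]; exact hwmin 0)
    have hfy : f y = y := by rw [hyz, f_psi, hpz]; ring
    have hp1 : p = 1 := by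
      have h1 : Function.IsPeriodicPt f 1 y := hfy
      have h2 := h1.minimalPeriod_dvd
      exact Nat.dvd_one.1 h2
    obtain ⟨ξ, a1, a2, a3⟩ := psi_mvt hz0
    rw [hpz, psi_zero] at a3
    have h1 : dpsi ξ = 0 := by
      have : dpsi ξ * (z - 0) = 0 := by linarith
      rcases mul_eq_zero.1 this with h | h
      · exact h
      · linarith
    have h2 := dpsi_anti a1.le a2 (by linarith)
    have h3 := hy.2.2
    rw [← hp, hp1, Function.iterate_one, (hasDerivAt_f y).deriv, hyz, df_psi] at h3
    have h4 := (abs_lt.1 h3).2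
    linarith

theorem basin_pos {y : ℝ} (hy : AttrPt y) : volume (Basin y ∩ Ioi 1) ≠ 0 := by
  obtain ⟨i, hi⟩ := exists_gt_one hy
  have h1 := attr_nhds' hy i
  have h2 : ∀ᶠ x in 𝓝 (f^[i] y), (1 : ℝ) < x := lt_mem_nhds hi
  have h3 : Basin y ∩ Ioi 1 ∈ 𝓝 (f^[i] y) := by
    filter_upwards [h1, h2] with x hx1 hx2
    exact ⟨⟨by linarith, hx1⟩, hx2⟩
  exact (Measure.measure_pos_of_mem_nhds volume h3).ne'

end Pool.Agent.W40.Ch
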